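import Pool.Agent.L0h82.CE.Inst

/-!
# Few clicks remove few layers
-/

namespace Pool.Agent.L0h82.CE

open Relation Pool.Agent.Q206.CK

section
variable {n R W : ℕ} {cov : ℕ → ℕ → Bool} {X : Set (ℕ × ℕ)}

/-- The group of a piece. -/
abbrev Cp (n R W : ℕ) (cov : ℕ → ℕ → Bool) (X : Set (ℕ × ℕ)) (x : ℕ × ℕ) : Set (ℕ × ℕ) :=
  comp (W + 2) (2 * n + 3) (ec n W) (L n R W cov X) x

/-- The board in the state `X`. -/
noncomputable abbrev Bd (n R W : ℕ) (cov : ℕ → ℕ → Bool) (X : Set (ℕ × ℕ)) : Board :=
  boardF (W + 2) (2 * n + 3) (ec n W) (L n R W cov X)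

/-- The pieces of a layer are joined to each other. -/
theorem conn_layer (hX : Unif n W X) {i : ℕ} (h2 : i < 2 * n) (h3 : (0, i) ∉ X)
    {c c' : ℕ} (hc : c < W) (hc' : c' < W) :
    ReflTransGen (Lk n R W cov X) (c, i) (c', i) := by
  have h4 : ∀ c < W, (c, i) ∉ X := fun c hc h => h3 ((hX.unif c hc i h2).1 h)
  have key : ∀ d c, c + d < W →
      ReflTransGen (Lk n R W cov X) (c, i) (c + d, i) ∧
      ReflTransGen (Lk n R W cov X) (c + d, i) (c, i) := by
    intro d
    induction d with
    | zero => intro c _; exact ⟨ReflTransGen.refl, ReflTransGen.refl⟩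
    | succ d ih =>
      intro c hc
      obtain ⟨h5, h6⟩ := ih c (by omega)
      have h7 := link_layer (R := R) (cov := cov) hX (c := c + d) (c' := c + d + 1) (by omega)
        (by omega) (Or.inl rfl) h2 (h4 _ (by omega))
      exact ⟨h5.tail h7, ReflTransGen.head h7.symm h6⟩
  rcases le_total c c' with h | h
  · obtain ⟨d, rfl⟩ := Nat.exists_eq_add_of_le h
    exact (key d c hc').1
  · obtain ⟨d, rfl⟩ := Nat.exists_eq_add_of_le h
    exact (key d c' hc).2

/-- The pieces joined to a layer are layers of the same run. -/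
theorem comp_run (hW : W % 2 = 1) (hX : Unif n W X) {x : ℕ × ℕ}
    (hx : Pr n R W cov X x) (h2 : x.2 < 2 * n)
    {y : ℕ × ℕ} (h : y ∈ Cp n R W cov X x) :
    (y.1 < W ∧ y.2 < 2 * n) ∧ (x.2 % 2 = y.2 % 2) ∧
      ∀ l, l < 2 * n → (0, l) ∉ X → (x.2 < l ∧ l < y.2 ∨ y.2 < l ∧ l < x.2) →
        l % 2 = x.2 % 2 := by
  have hx1 : x.1 < W := by
    have h3 := hx.pos
    by_contra h4
    rw [el_high_of_ne (by omega) (by omega) (Or.inl (by omega))] at h3
    omega
  have hxc : ec n W x.1 x.2 = x.2 % 2 := by unfold ec; rw [if_pos h2]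
  have hlay : ∀ y z, Lk n R W cov X y z → y.2 < 2 * n → ec n W z.1 z.2 < 2 →
      z.1 < W ∧ z.2 < 2 * n ∧ ec n W z.1 z.2 = z.2 % 2 := by
    intro y z hyz hy hz
    rcases ec_lt_two hW hyz.2.1 hz with h3 | h3 | h3
    · exact ⟨h3.2.1, h3.1, h3.2.2⟩
    · exfalso
      have e : z = (W + 1, 2 * n) := Prod.ext h3.2.1 h3.1
      rw [e] at hyz
      exact not_link_strip hW hyz.symm
    · exfalso
      have e : z = (z.1, 2 * n + 1) := Prod.ext rfl h3.1
      rw [e] at hyz
      exact not_link_filler hW hX h3.2.1 h3.2.2.1 hyz.symm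
  have hcol : ∀ z, z ∈ Cp n R W cov X x → (z.1 < W ∧ z.2 < 2 * n) ∧ x.2 % 2 = z.2 % 2 := by
    intro z hz
    have hz' : ReflTransGen (Lk n R W cov X) x z := hz
    induction hz' with
    | refl => exact ⟨⟨hx1, h2⟩, rfl⟩
    | @tail y z hy hyz ih =>
      obtain ⟨h3, h4⟩ := ih hy
      have h5 : ec n W y.1 y.2 = ec n W z.1 z.2 := hyz.2.2.1
      have h6 : ec n W y.1 y.2 = y.2 % 2 := by unfold ec; rw [if_pos h3.2]
      have h7 := hlay y z hyz h3.2 (by omega)
      exact ⟨⟨h7.1, h7.2.1⟩, by omega⟩
  refine ⟨(hcol y h).1, (hcol y h).2, ?_⟩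
  have h' : ReflTransGen (Lk n R W cov X) x y := h
  clear h
  induction h' with
  | refl => intro l _ _ h3; omega
  | @tail y z hy hyz ih =>
    intro l hl2 hl h3
    have h4 := hcol y hy
    have h5 := hcol z (hy.tail hyz)
    by_cases h6 : l = y.2
    · omega
    rcases h3 with ⟨h7, h8⟩ | ⟨h7, h8⟩
    · rcases lt_or_gt_of_ne h6 with h9 | h9
      · exact ih l hl2 hl (Or.inl ⟨h7, h9⟩)
      · exact absurd (link_between hX h4.1.1 h5.1.1 hyz h9 h8 hl2) hl
    · rcases lt_or_gt_of_ne h6 with h9 | h9
      · exact absurd (link_between hX h5.1.1 h4.1.1 hyz.symm h7 h9 hl2) hl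
      · exact ih l hl2 hl (Or.inr ⟨h9, h8⟩)

/-- The state after `s` clicks, `r` of which on layers. -/
structure Inv (n W : ℕ) (X : Set (ℕ × ℕ)) (r s : ℕ) (A : Finset ℕ) : Prop where
  unif : Unif n W X
  mem : ∀ j ∈ A, j < n ∧ (0, 2 * j) ∉ X
  sep : ∀ j ∈ A, ∀ j' ∈ A, j < j' → ∃ l, j ≤ l ∧ l < j' ∧ (0, 2 * l + 1) ∉ X
  card : n ≤ A.card + r
  rs : r ≤ s
  strip : (W + 1, 2 * n) ∈ X → r + 1 ≤ s

theorem step_layer (hW : W % 2 = 1) {r s : ℕ} {A : Finset ℕ} (hI : Inv n W X r s A) {x : ℕ × ℕ}
    (hx : Pr n R W cov X x) (h2 : x.2 < 2 * n) :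
    ∃ A', Inv n W (X ∪ Cp n R W cov X x) (r + 1) (s + 1) A' := by
  classical
  have hX := hI.unif
  set G := Cp n R W cov X x with hG
  have hlay : ∀ {c i}, (c, i) ∈ G → c < W ∧ i < 2 * n := fun h => (comp_run hW hX hx h2 h).1
  have hpar : ∀ {c i}, (c, i) ∈ G → x.2 % 2 = i % 2 := fun h => (comp_run hW hX hx h2 h).2.1
  have hrun : ∀ {c i}, (c, i) ∈ G → ∀ l, l < 2 * n → (0, l) ∉ X →
      (x.2 < l ∧ l < i ∨ i < l ∧ l < x.2) → l % 2 = x.2 % 2 :=
    fun h => (comp_run hW hX hx h2 h).2.2
  have hU : Unif n W (X ∪ G) := by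
    constructor
    · rintro c hc (h | h)
      · exact hX.main c hc h
      · have := hlay h; omega
    · rintro c i hi (h | h)
      · exact hX.top c i hi h
      · have := hlay h; omega
    · intro c hc i hi
      have e : (c, i) ∈ G ↔ (0, i) ∈ G := by
        constructor
        · intro h
          have h3 : (c, i) ∉ X := Pr.notMem (comp_pres hx h).1
          have h4 : (0, i) ∉ X := fun h5 => h3 ((hX.unif c hc i hi).2 h5)
          exact (show ReflTransGen _ x (c, i) from h).trans (conn_layer hX hi h4 hc (by omega))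
        · intro h
          have h4 : (0, i) ∉ X := Pr.notMem (comp_pres hx h).1
          exact (show ReflTransGen _ x (0, i) from h).trans (conn_layer hX hi h4 (by omega) hc)
      rw [Set.mem_union, Set.mem_union, hX.unif c hc i hi, e]
  have main : ∃ A' : Finset ℕ, (∀ j ∈ A', j < n ∧ (0, 2 * j) ∉ X ∪ G) ∧
      (∀ j ∈ A', ∀ j' ∈ A', j < j' → ∃ l, j ≤ l ∧ l < j' ∧ (0, 2 * l + 1) ∉ X ∪ G) ∧
      A.card ≤ A'.card + 1 := by
    rcases Nat.mod_two_eq_zero_or_one x.2 with hp | hp
    · -- a layer of colour 0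
      refine ⟨A.filter fun j => (0, 2 * j) ∉ G, ?_, ?_, ?_⟩
      · intro j hj
        rw [Finset.mem_filter] at hj
        refine ⟨(hI.mem j hj.1).1, ?_⟩
        rintro (h | h)
        · exact (hI.mem j hj.1).2 h
        · exact hj.2 h
      · intro j hj j' hj' hjj
        rw [Finset.mem_filter] at hj hj'
        obtain ⟨l, h3, h4, h5⟩ := hI.sep j hj.1 j' hj'.1 hjj
        refine ⟨l, h3, h4, ?_⟩
        rintro (h | h)
        · exact h5 h
        · have := hpar h; omega
      · have h3 : (A.filter fun j => ¬ (0, 2 * j) ∉ G).card ≤ 1 := by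
          rw [Finset.card_le_one]
          have key : ∀ j ∈ A, ∀ j' ∈ A, (0, 2 * j) ∈ G → (0, 2 * j') ∈ G → ¬ j < j' := by
            intro j hj j' hj' hg hg' hjj
            obtain ⟨l, h3, h4, h5⟩ := hI.sep j hj j' hj' hjj
            have h6 := (hI.mem j' hj').1
            rcases lt_or_ge x.2 (2 * l + 1) with h7 | h7
            · have := hrun hg' (2 * l + 1) (by omega) h5 (Or.inl ⟨h7, by omega⟩)
              omega
            · have := hrun hg (2 * l + 1) (by omega) h5 (Or.inr ⟨by omega, by omega⟩)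
              omega
          intro j hj j' hj'
          rw [Finset.mem_filter, not_not] at hj hj'
          have k1 := key j hj.1 j' hj'.1 hj.2 hj'.2
          have k2 := key j' hj'.1 j hj.1 hj'.2 hj.2
          omega
        have h4 := Finset.card_filter_add_card_filter_not (s := A) (fun j => (0, 2 * j) ∉ G)
        omega
    · -- a layer of colour 1
      have heven : ∀ j, (0, 2 * j) ∉ G := fun j h => by have := hpar h; omega
      -- broken pairs
      have hbr : ∀ j ∈ A, ∀ j' ∈ A, j < j' →
          (∀ l, j ≤ l → l < j' → (0, 2 * l + 1) ∈ X ∪ G) → 2 * j < x.2 ∧ x.2 < 2 * j' := by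
        intro j hj j' hj' hjj hl
        obtain ⟨l, h3, h4, h5⟩ := hI.sep j hj j' hj' hjj
        have h6 : (0, 2 * l + 1) ∈ G := by
          rcases hl l h3 h4 with h | h
          · exact absurd h h5
          · exact h
        have hr := hrun h6
        have hj1 := hI.mem j hj
        have hj2 := hI.mem j' hj'
        constructor
        · by_contra h7
          have := hr (2 * j) (by omega) hj1.2 (Or.inl ⟨by omega, by omega⟩)
          omega
        · by_contra h7
          have := hr (2 * j') (by omega) hj2.2 (Or.inr ⟨by omega, by omega⟩)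
          omega
      by_cases hne : (A.filter fun a => 2 * a < x.2).Nonempty
      · obtain ⟨a0, ha0, hmax⟩ := Finset.exists_max_image _ (fun a => a) hne
        rw [Finset.mem_filter] at ha0
        refine ⟨A.erase a0, ?_, ?_, ?_⟩
        · intro j hj
          have hj' := Finset.mem_of_mem_erase hj
          refine ⟨(hI.mem j hj').1, ?_⟩
          rintro (h | h)
          · exact (hI.mem j hj').2 h
          · exact heven j h
        · intro j hj j' hj' hjj
          by_contra hcon
          push Not at hcon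
          have hjA := Finset.mem_of_mem_erase hj
          have hjA' := Finset.mem_of_mem_erase hj'
          have h3 := hbr j hjA j' hjA' hjj hcon
          have h4 : j ≤ a0 := hmax j (Finset.mem_filter.2 ⟨hjA, h3.1⟩)
          have h5 : j ≠ a0 := Finset.ne_of_mem_erase hj
          obtain ⟨l, h6, h7, h8⟩ := hI.sep j hjA a0 ha0.1 (by omega)
          have h9 : (0, 2 * l + 1) ∈ G := by
            rcases hcon l h6 (by omega) with h | h
            · exact absurd h h8
            · exact h
          have := hrun h9 (2 * a0) (by have := (hI.mem a0 ha0.1).1; omega)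
            (hI.mem a0 ha0.1).2 (Or.inr ⟨by omega, by omega⟩)
          omega
        · rw [Finset.card_erase_of_mem ha0.1]
          omega
      · refine ⟨A, ?_, ?_, by omega⟩
        · intro j hj
          refine ⟨(hI.mem j hj).1, ?_⟩
          rintro (h | h)
          · exact (hI.mem j hj).2 h
          · exact heven j h
        · intro j hj j' hj' hjj
          by_contra hcon
          push Not at hcon
          have h3 := hbr j hj j' hj' hjj hcon
          exact hne ⟨j, Finset.mem_filter.2 ⟨hj, h3.1⟩⟩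
  obtain ⟨A', hm, hs, hcard⟩ := main
  refine ⟨A', hU, hm, hs, ?_, ?_, ?_⟩
  · have := hI.card; omega
  · have := hI.rs; omega
  · rintro (h | h)
    · have := hI.strip h; omega
    · have := hlay h; omega

/-- A click on the strip. -/
theorem step_strip (hW : W % 2 = 1) {r s : ℕ} {A : Finset ℕ} (hI : Inv n W X r s A) :
    Inv n W (X ∪ Cp n R W cov X (W + 1, 2 * n)) r (s + 1) A := by
  have e : Cp n R W cov X (W + 1, 2 * n) = {(W + 1, 2 * n)} := by
    ext z
    rw [Set.mem_singleton_iff]
    constructor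
    · intro hz
      rcases ReflTransGen.cases_head (show ReflTransGen (Lk n R W cov X) (W + 1, 2 * n) z from hz)
        with h3 | ⟨y, h3, -⟩
      · exact h3.symm
      · exact absurd h3 (not_link_strip hW)
    · rintro rfl; exact ReflTransGen.refl
  rw [e]
  have hne : ∀ c i, c ≤ W → (c, i) ∉ ({(W + 1, 2 * n)} : Set (ℕ × ℕ)) := by
    intro c i hc h
    rw [Set.mem_singleton_iff, Prod.mk.injEq] at h
    omega
  have hWpos : 0 < W := by omega
  refine ⟨⟨?_, ?_, ?_⟩, ?_, ?_, hI.card, ?_, ?_⟩
  · rintro c hc (h | h)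
    · exact hI.unif.main c hc h
    · exact hne c _ hc h
  · rintro c i hi (h | h)
    · exact hI.unif.top c i hi h
    · rw [Set.mem_singleton_iff, Prod.mk.injEq] at h
      omega
  · intro c hc i hi
    rw [Set.mem_union, Set.mem_union, hI.unif.unif c hc i hi]
    simp only [hne c i (by omega), hne 0 i (by omega)]
  · intro j hj
    refine ⟨(hI.mem j hj).1, ?_⟩
    rintro (h | h)
    · exact (hI.mem j hj).2 h
    · exact hne 0 _ (by omega) h
  · intro j hj j' hj' hjj
    obtain ⟨l, h3, h4, h5⟩ := hI.sep j hj j' hj' hjj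
    refine ⟨l, h3, h4, ?_⟩
    rintro (h | h)
    · exact h5 h
    · exact hne 0 _ (by omega) h
  · have := hI.rs; omega
  · intro _
    have := hI.rs; omega

/-- All bars are joined. -/
theorem conn_main (hW : W % 2 = 1) (hX : Unif n W X) {c c' : ℕ} (hc : c ≤ W) (hc' : c' ≤ W) :
    ReflTransGen (Lk n R W cov X) (c, 2 * n) (c', 2 * n) := by
  have key : ∀ d c, c + d ≤ W →
      ReflTransGen (Lk n R W cov X) (c, 2 * n) (c + d, 2 * n) ∧
      ReflTransGen (Lk n R W cov X) (c + d, 2 * n) (c, 2 * n) := by
    intro d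
    induction d with
    | zero => intro c _; exact ⟨ReflTransGen.refl, ReflTransGen.refl⟩
    | succ d ih =>
      intro c hc
      obtain ⟨h5, h6⟩ := ih c (by omega)
      have h7 := link_main (R := R) (cov := cov) hX hW (c := c + d) (by omega)
      exact ⟨h5.tail h7, ReflTransGen.head h7.symm h6⟩
  rcases le_total c c' with h | h
  · obtain ⟨d, rfl⟩ := Nat.exists_eq_add_of_le h
    exact (key d c hc').1
  · obtain ⟨d, rfl⟩ := Nat.exists_eq_add_of_le h
    exact (key d c' hc).2

theorem comp_eq_of_conn {x y : ℕ × ℕ} (h : ReflTransGen (Lk n R W cov X) x y) :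
    Cp n R W cov X x = Cp n R W cov X y := by
  have hs : ReflTransGen (Lk n R W cov X) y x := by
    have : ∀ z, ReflTransGen (Lk n R W cov X) x z → ReflTransGen (Lk n R W cov X) z x := by
      intro z hz
      induction hz with
      | refl => exact ReflTransGen.refl
      | tail _ h2 ih => exact ReflTransGen.head h2.symm ih
    exact this y h
  ext z
  exact ⟨fun hz => hs.trans hz, fun hz => h.trans hz⟩

/-- The main group. -/
abbrev Mg (n R W : ℕ) (cov : ℕ → ℕ → Bool) (X : Set (ℕ × ℕ)) : Set (ℕ × ℕ) :=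
  Cp n R W cov X (0, 2 * n)

/-- **One click.** -/
theorem step (hW : W % 2 = 1) {r s : ℕ} {A : Finset ℕ} (hI : Inv n W X r s A) {x : ℕ × ℕ}
    (hx : Pr n R W cov X x)
    (h2 : 2 ≤ L n R W cov X x.1 x.2 ∨ ∃ y, Lk n R W cov X x y) :
    (∃ r' A', Inv n W (X ∪ Cp n R W cov X x) r' (s + 1) A') ∨
      Cp n R W cov X x = Mg n R W cov X := by
  obtain ⟨c, i⟩ := x
  have hi : i < 2 * n + 3 := hx.2.1
  have hc : c < W + 2 := hx.1
  have hpos : 0 < el n R W cov c i := hx.pos
  rcases Nat.lt_or_ge i (2 * n) with h1 | h1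
  · left
    obtain ⟨A', h⟩ := step_layer hW hI hx h1
    exact ⟨r + 1, A', h⟩
  by_cases h3 : i = 2 * n
  · subst h3
    by_cases h4 : c = W + 1
    · subst h4
      exact Or.inl ⟨r, A, step_strip hW hI⟩
    · right
      exact comp_eq_of_conn (conn_main hW hI.unif (by omega) (by omega))
  by_cases h4 : i = 2 * n + 1
  · exfalso
    subst h4
    have h5 : el n R W cov c (2 * n + 1) ≤ 1 := by
      unfold el
      split_ifs <;> omega
    have h6 : ¬ ∃ y, Lk n R W cov X (c, 2 * n + 1) y := by
      rintro ⟨y, hy⟩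
      rcases Nat.mod_two_eq_zero_or_one c with h7 | h7
      · exact not_link_cap h7 hy
      · have h8 : c < W := by
          by_contra h8
          rw [el_high_of_ne (by omega) (by omega) (Or.inr (by omega))] at hpos
          omega
        exact not_link_filler hW hI.unif h8 h7 hy
    rcases h2 with h2 | h2
    · have h7 : L n R W cov X c (2 * n + 1) ≤ el n R W cov c (2 * n + 1) := by
        rw [show L n R W cov X c (2 * n + 1) = _ from cut_of_notMem (hI.unif.top c _ le_rfl)]
      have h2' : 2 ≤ L n R W cov X c (2 * n + 1) := h2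
      omega
    · exact h6 h2
  · have h5 : i = 2 * n + 2 := by omega
    subst h5
    have h6 : ec n W c (2 * n + 2) = 3 := by
      unfold ec; rw [if_neg (by omega), if_neg (by omega), if_neg (by omega)]
    rcases ec_eq_three hx h6 with h7 | h7
    · have h7' : 2 * n + 2 = 2 * n := h7.1
      omega
    obtain ⟨-, h8, h9⟩ := h7
    simp only at h8 h9
    have h10 : ∃ y, Lk n R W cov X (c, 2 * n + 2) y := by
      rcases h2 with h2 | h2
      · exfalso
        have h2' : 2 ≤ L n R W cov X c (2 * n + 2) := h2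
        rw [show L n R W cov X c (2 * n + 2) = _ from cut_of_notMem
          (hI.unif.top c _ (by omega)), el_odd h8 h9] at h2'
        omega
      · exact h2
    right
    by_cases h11 : ∀ j < n, cov (c / 2 / R) j = true → (0, 2 * j) ∉ X
    · obtain ⟨y, hy⟩ := h10
      exact absurd hy (not_link_T hW hI.unif h8 h9 h11)
    · push Not at h11
      obtain ⟨j, h12, h13, h14⟩ := h11
      have h15 := link_T (R := R) (cov := cov) hI.unif h8 (c' := c - 1) (by omega) h9
        (Or.inr (by omega)) ⟨j, h12, h13, h14⟩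
      have h16 : ReflTransGen (Lk n R W cov X) (c, 2 * n + 2) (0, 2 * n) :=
        ReflTransGen.head h15 (conn_main hW hI.unif (by omega) (by omega))
      exact comp_eq_of_conn h16

/-- No column is empty before the bars are removed. -/
theorem filter_board (hX : Unif n W X) :
    (Bd n R W cov X).filter (fun C => decide (C ≠ [])) = Bd n R W cov X := by
  rw [List.filter_eq_self]
  intro l hl
  unfold Bd boardF at hl
  rw [List.mem_map] at hl
  obtain ⟨c, hc, rfl⟩ := hl
  rw [List.mem_range] at hc
  rw [decide_eq_true_eq]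
  intro h
  have h1 := length_colF (2 * n + 3) (ec n W c) (L n R W cov X c)
  rw [h] at h1
  have h2 := off_mono (L n R W cov X c) (show 2 * n + 1 ≤ 2 * n + 3 by omega)
  have h3 := off_mono (L n R W cov X c) (show 2 * n + 1 + 1 ≤ 2 * n + 3 by omega)
  rw [off_succ] at h2
  rw [off_succ] at h3
  have h4 : 0 < L n R W cov X c (2 * n) ∨ 0 < L n R W cov X c (2 * n + 1) := by
    by_cases h5 : c ≤ W
    · exact Or.inl (L_main_pos hX h5)
    · right
      rw [show L n R W cov X c (2 * n + 1) = _ from cut_of_notMem (hX.top c _ le_rfl)]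
      have : c = W + 1 := by omega
      rw [this, el_strip_cap]
      omega
  simp at h1
  omega

theorem Bd_ne_nil : Bd n R W cov X ≠ [] := by
  unfold Bd boardF
  intro h
  have := congrArg List.length h
  simp at this

/-- The board after the removal of the main group. -/
noncomputable abbrev Pb (n R W : ℕ) (cov : ℕ → ℕ → Bool) (X : Set (ℕ × ℕ)) : Board :=
  (Bd n R W cov (X ∪ Mg n R W cov X)).filter (fun C => decide (C ≠ []))

theorem clicks_inv (hW : W % 2 = 1) (j : ℕ) : ∀ (X : Set (ℕ × ℕ)) {r s : ℕ} {A : Finset ℕ},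
    Inv n W X r s A → Clicks j (Bd n R W cov X) [] →
    ∃ X' r' s' A' j', s' + 1 + j' = s + j ∧ Inv n W X' r' s' A' ∧
      Clicks j' (Pb n R W cov X') [] := by
  induction j with
  | zero =>
    intro X r s A hI h
    exact absurd (show Bd n R W cov X = [] from h) Bd_ne_nil
  | succ j ih =>
    intro X r s A hI h
    obtain ⟨B'', h1, h2⟩ := h
    obtain ⟨x, hx, h3, rfl⟩ := click_iff.1 h1
    rcases step hW hI hx h3 with ⟨r', A', hI'⟩ | h4
    · rw [cut_cut, filter_board hI'.unif] at h2
      obtain ⟨X', r'', s'', A'', j', h5, h6, h7⟩ := ih _ hI' h2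
      exact ⟨X', r'', s'', A'', j', by omega, h6, h7⟩
    · refine ⟨X, r, s, A, j, by omega, hI, ?_⟩
      rw [cut_cut] at h2
      have h4' : comp (W + 2) (2 * n + 3) (ec n W) (L n R W cov X) x = Mg n R W cov X := h4
      rw [h4'] at h2
      exact h2

theorem inv_init : Inv n W ∅ 0 0 (Finset.range n) := by
  refine ⟨⟨fun c _ h => h, fun c i _ h => h, fun c _ i _ => by simp⟩, ?_, ?_, ?_, le_rfl, ?_⟩
  · intro j hj
    exact ⟨Finset.mem_range.1 hj, fun h => h⟩
  · intro j _ j' _ h
    exact ⟨j, le_rfl, h, fun h => h⟩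
  · simp
  · intro h
    exact absurd h (Set.notMem_empty _)

/-! ### after the removal of the main group -/

theorem count_colF (M : ℕ) (col ℓ : ℕ → ℕ) (a : ℕ) :
    (colF M col ℓ).count a = ∑ i ∈ Finset.range M, if col i = a then ℓ i else 0 := by
  induction M with
  | zero => rfl
  | succ M ih =>
    rw [colF_succ, List.count_append, ih, Finset.sum_range_succ]
    congr 1
    rw [List.count_replicate]
    by_cases h : col M = a
    · simp [h]
    · simp [h]

theorem mg_colour (hX : Unif n W X) {y : ℕ × ℕ} (hy : y ∈ Mg n R W cov X) :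
    Pr n R W cov X y ∧ ec n W y.1 y.2 = 3 := by
  have h := comp_pres (pres_main hX (Nat.zero_le _)) hy
  refine ⟨h.1, ?_⟩
  rw [← h.2]
  exact ec_main (Nat.zero_le _)

theorem mem_mg_main (hW : W % 2 = 1) (hX : Unif n W X) {c : ℕ} (hc : c ≤ W) :
    (c, 2 * n) ∈ Mg n R W cov X := conn_main hW hX (Nat.zero_le _) hc

theorem T_notMem_mg (hW : W % 2 = 1) (hX : Unif n W X) {c : ℕ} (hc : c < W) (ho : c % 2 = 1)
    (hcov : ∀ j < n, cov (c / 2 / R) j = true → (0, 2 * j) ∉ X) :
    (c, 2 * n + 2) ∉ Mg n R W cov X := by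
  intro h
  rcases comp_link h with h1 | ⟨y, h1⟩
  · rw [Prod.mk.injEq] at h1
    omega
  · exact not_link_T hW hX hc ho hcov h1

theorem cols_of_pres {X' : Set (ℕ × ℕ)} {y : ℕ × ℕ} (h1 : y.1 < W + 2) (h2 : y.2 < 2 * n + 3)
    (h3 : 0 < L n R W cov X' y.1 y.2) :
    ec n W y.1 y.2 ∈ cols ((Bd n R W cov X').filter (fun C => decide (C ≠ []))) := by
  have hm : ec n W y.1 y.2 ∈ colF (2 * n + 3) (ec n W y.1) (L n R W cov X' y.1) := by
    unfold colF
    rw [List.mem_flatMap]
    refine ⟨y.2, List.mem_range.2 h2, ?_⟩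
    rw [List.mem_replicate]
    exact ⟨by omega, rfl⟩
  refine ⟨colF (2 * n + 3) (ec n W y.1) (L n R W cov X' y.1), ?_, hm⟩
  rw [List.mem_filter]
  refine ⟨?_, ?_⟩
  · unfold Bd boardF
    exact List.mem_map.2 ⟨y.1, List.mem_range.2 h1, rfl⟩
  · rw [decide_eq_true_eq]
    intro h0
    rw [h0] at hm
    simp at hm

/-- The number of clicks needed after the removal of the main group. -/
theorem clicks_post (hW3 : 3 ≤ W) (hX : Unif n W X) {j : ℕ}
    (h : Clicks j (Pb n R W cov X) []) :
    2 ≤ j ∧ ((W + 1, 2 * n) ∉ X → 3 ≤ j) := by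
  have hne : ∀ {c i}, (c, i) ∉ X → ec n W c i ≠ 3 → (c, i) ∉ X ∪ Mg n R W cov X := by
    rintro c i h1 h2 (h3 | h3)
    · exact h1 h3
    · exact h2 (mg_colour hX h3).2
  have e0 : ec n W 1 (2 * n + 1) = 0 := by
    unfold ec; rw [if_neg (by omega), if_neg (by omega), if_pos rfl, if_pos (by omega)]
  have e2 : ec n W 0 (2 * n + 1) = 2 := by
    unfold ec; rw [if_neg (by omega), if_neg (by omega), if_pos rfl, if_neg (by omega)]
  have e1 : ec n W (W + 1) (2 * n) = 1 := by
    unfold ec; rw [if_neg (by omega), if_pos rfl, if_pos rfl]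
  have h0 : 0 ∈ cols (Pb n R W cov X) := by
    have := cols_of_pres (n := n) (R := R) (W := W) (cov := cov) (X' := X ∪ Mg n R W cov X)
      (y := (1, 2 * n + 1)) (by show 1 < _; omega) (by show 2 * n + 1 < _; omega) (by
        show 0 < L n R W cov _ 1 (2 * n + 1)
        rw [show L n R W cov (X ∪ Mg n R W cov X) 1 (2 * n + 1) = _ from
          cut_of_notMem (hne (hX.top _ _ le_rfl) (by rw [e0]; omega)), el_top (by omega)]
        omega)
    simp only [e0] at this
    exact this
  have h2 : 2 ∈ cols (Pb n R W cov X) := by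
    have := cols_of_pres (n := n) (R := R) (W := W) (cov := cov) (X' := X ∪ Mg n R W cov X)
      (y := (0, 2 * n + 1)) (by show 0 < _; omega) (by show 2 * n + 1 < _; omega) (by
        show 0 < L n R W cov _ 0 (2 * n + 1)
        rw [show L n R W cov (X ∪ Mg n R W cov X) 0 (2 * n + 1) = _ from
          cut_of_notMem (hne (hX.top _ _ le_rfl) (by rw [e2]; omega)), el_top (by omega)]
        omega)
    simp only [e2] at this
    exact this
  constructor
  · have := card_le_of_clicks j h {0, 2} (by
      intro a ha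
      simp only [Finset.mem_insert, Finset.mem_singleton] at ha
      rcases ha with rfl | rfl
      · exact h0
      · exact h2)
    simpa using this
  · intro hs
    have h1 : 1 ∈ cols (Pb n R W cov X) := by
      have := cols_of_pres (n := n) (R := R) (W := W) (cov := cov) (X' := X ∪ Mg n R W cov X)
        (y := (W + 1, 2 * n)) (by show W + 1 < _; omega) (by show 2 * n < _; omega) (by
          show 0 < L n R W cov _ (W + 1) (2 * n)
          rw [show L n R W cov (X ∪ Mg n R W cov X) (W + 1) (2 * n) = _ from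
            cut_of_notMem (hne hs (by rw [e1]; omega)), el_high (by omega)]
          omega)
      simp only [e1] at this
      exact this
    have := card_le_of_clicks j h {0, 1, 2} (by
      intro a ha
      simp only [Finset.mem_insert, Finset.mem_singleton] at ha
      rcases ha with rfl | rfl | rfl
      · exact h0
      · exact h1
      · exact h2)
    simpa using this

/-- If `u` is not covered, then the columns of `u` are stuck. -/
theorem pat_post (hW : W % 2 = 1) (hX : Unif n W X) {u : ℕ} (hR : 0 < R)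
    (hu : 2 * (R * u + R) ≤ W)
    (hcov : ∀ j < n, cov u j = true → (0, 2 * j) ∉ X) :
    ∃ s, Pat 3 2 s (2 * R - 1) (Pb n R W cov X) := by
  have key : ∀ i < 2 * R - 1, ∃ C, (Bd n R W cov (X ∪ Mg n R W cov X))[2 * (R * u) + 1 + i]? =
      some C ∧ (if i % 2 = 0 then Good 3 2 C else Good 2 3 C) := by
    intro i hi
    have hc : 2 * (R * u) + 1 + i < W := by
      have : 2 * (R * u + R) = 2 * (R * u) + 2 * R := by ring
      omega
    refine ⟨colF (2 * n + 3) (ec n W (2 * (R * u) + 1 + i))
      (L n R W cov (X ∪ Mg n R W cov X) (2 * (R * u) + 1 + i)), ?_, ?_⟩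
    · unfold Bd boardF
      rw [List.getElem?_map, List.getElem?_range (by omega)]
      rfl
    · set c := 2 * (R * u) + 1 + i with hcdef
      have hmain : L n R W cov (X ∪ Mg n R W cov X) c (2 * n) = 0 :=
        cut_of_mem (Or.inr (mem_mg_main hW hX (by omega)))
      have hcol2 : ∀ i, ec n W c i = 2 ↔ (i = 2 * n + 1 ∧ c % 2 = 0) := by
        intro i
        unfold ec
        split_ifs <;> constructor <;> intro h <;> first | omega | exact h.elim
      have hcol3 : ∀ i, ec n W c i = 3 ↔ (i = 2 * n ∨ 2 * n + 2 ≤ i) := by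
        intro i
        unfold ec
        split_ifs <;> constructor <;> intro h <;> first | omega | exact h.elim
      have c3 : (colF (2 * n + 3) (ec n W c) (L n R W cov (X ∪ Mg n R W cov X) c)).count 3 =
          L n R W cov (X ∪ Mg n R W cov X) c (2 * n + 2) := by
        rw [count_colF, Finset.sum_eq_single (2 * n + 2)]
        · rw [if_pos ((hcol3 _).2 (Or.inr le_rfl))]
        · intro b hb hb2
          rw [Finset.mem_range] at hb
          by_cases h : ec n W c b = 3
          · rw [if_pos h]
            rcases (hcol3 b).1 h with h1 | h1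
            · rw [h1]; exact hmain
            · omega
          · rw [if_neg h]
        · intro h
          exact absurd (Finset.mem_range.2 (by omega)) h
      have c2 : (colF (2 * n + 3) (ec n W c) (L n R W cov (X ∪ Mg n R W cov X) c)).count 2 =
          if c % 2 = 0 then L n R W cov (X ∪ Mg n R W cov X) c (2 * n + 1) else 0 := by
        rw [count_colF, Finset.sum_eq_single (2 * n + 1)]
        · by_cases h : c % 2 = 0
          · rw [if_pos ((hcol2 _).2 ⟨rfl, h⟩), if_pos h]
          · rw [if_neg (fun h' => h ((hcol2 _).1 h').2), if_neg h]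
        · intro b hb hb2
          rw [if_neg]
          intro h
          exact hb2 ((hcol2 b).1 h).1
        · intro h
          exact absurd (Finset.mem_range.2 (by omega)) h
      rcases Nat.mod_two_eq_zero_or_one i with h2 | h2
      · rw [if_pos h2]
        have ho : c % 2 = 1 := by omega
        have hdiv : c / 2 / R = u := by
          have h3 : c / 2 = i / 2 + R * u := by omega
          have h4 : i / 2 < R := by omega
          rw [h3, Nat.add_mul_div_left _ _ hR, Nat.div_eq_of_lt h4, zero_add]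
        have hT : (c, 2 * n + 2) ∉ X ∪ Mg n R W cov X := by
          rintro (h | h)
          · exact hX.top _ _ (by omega) h
          · exact T_notMem_mg hW hX hc ho (by rw [hdiv]; exact hcov) h
        refine ⟨?_, ?_⟩
        · rw [c3, show L n R W cov (X ∪ Mg n R W cov X) c (2 * n + 2) = _ from
            cut_of_notMem hT, el_odd hc ho]
        · rw [c2, if_neg (by omega)]
      · rw [if_neg (by omega)]
        have he : c % 2 = 0 := by omega
        have hcap : (c, 2 * n + 1) ∉ X ∪ Mg n R W cov X := by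
          rintro (h | h)
          · exact hX.top _ _ le_rfl h
          · have h3 := (mg_colour hX h).2
            have h4 : ec n W c (2 * n + 1) = 2 := (hcol2 _).2 ⟨rfl, he⟩
            simp only at h3
            omega
        refine ⟨?_, ?_⟩
        · rw [c2, if_pos he, show L n R W cov (X ∪ Mg n R W cov X) c (2 * n + 1) = _ from
            cut_of_notMem hcap, el_top hc]
        · rw [c3]
          by_cases h : (c, 2 * n + 2) ∈ X ∪ Mg n R W cov X
          · exact cut_of_mem h
          · rw [show L n R W cov (X ∪ Mg n R W cov X) c (2 * n + 2) = _ from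
              cut_of_notMem h, el_even hc he]
  have hf := filter_getElem? (fun C : List ℕ => decide (C ≠ []))
    (Bd n R W cov (X ∪ Mg n R W cov X)) (2 * (R * u) + 1) (2 * R - 1) (by
      intro i hi
      obtain ⟨C, hC, hCg⟩ := key i hi
      refine ⟨C, hC, ?_⟩
      rw [decide_eq_true_eq]
      split_ifs at hCg
      · exact hCg.ne_nil
      · exact hCg.ne_nil)
  refine ⟨(((Bd n R W cov (X ∪ Mg n R W cov X)).take (2 * (R * u) + 1)).filter
    fun C : List ℕ => decide (C ≠ [])).length, fun i hi => ?_⟩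
  obtain ⟨C, hC, hCg⟩ := key i hi
  refine ⟨C, ?_, hCg⟩
  rw [hf i hi]
  exact hC

/-- The board of the instance. -/
def board0 (n R W : ℕ) (cov : ℕ → ℕ → Bool) : Board :=
  boardF (W + 2) (2 * n + 3) (ec n W) (el n R W cov)

theorem board0_eq : board0 n R W cov = Bd n R W cov ∅ := by
  unfold board0 Bd
  congr 1
  funext c i
  rw [show L n R W cov ∅ c i = _ from cut_of_notMem (Set.notMem_empty _)]

/-- **The backward direction.** -/
theorem backward {U k j : ℕ} (hU : 0 < U) (hj : j ≤ k + 4)
    (h : Clicks j (board0 n (k + 4) (2 * ((k + 4) * U) + 1) cov) []) :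
    ∃ D : Finset ℕ, (∀ i ∈ D, i < n) ∧ D.card ≤ k ∧ ∀ u < U, ∃ i ∈ D, cov u i = true := by
  classical
  set W := 2 * ((k + 4) * U) + 1 with hWdef
  have hW : W % 2 = 1 := by omega
  have hW3 : 3 ≤ W := by
    have : 0 < (k + 4) * U := by positivity
    omega
  rw [board0_eq] at h
  obtain ⟨X, r, s, A, j', h1, hI, h2⟩ := clicks_inv hW j ∅ inv_init h
  obtain ⟨h3, h4⟩ := clicks_post hW3 hI.unif h2
  have hr : r ≤ k := by
    have h5 := hI.rs
    by_cases h6 : (W + 1, 2 * n) ∈ X
    · have := hI.strip h6; omega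
    · have := h4 h6; omega
  refine ⟨(Finset.range n).filter fun i => (0, 2 * i) ∈ X, ?_, ?_, ?_⟩
  · intro i hi
    exact Finset.mem_range.1 (Finset.mem_filter.1 hi).1
  · have h1 : A ⊆ (Finset.range n).filter fun i => ¬ (0, 2 * i) ∈ X := by
      intro i hi
      exact Finset.mem_filter.2 ⟨Finset.mem_range.2 (hI.mem i hi).1, (hI.mem i hi).2⟩
    have h2 := Finset.card_le_card h1
    have h3 := Finset.card_filter_add_card_filter_not (s := Finset.range n)
      (fun i => (0, 2 * i) ∈ X)
    rw [Finset.card_range] at h3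
    have := hI.card
    omega
  · intro u hu
    by_contra hcon
    push Not at hcon
    have hcov : ∀ j < n, cov u j = true → (0, 2 * j) ∉ X := by
      intro i hi h5 h6
      exact hcon i (Finset.mem_filter.2 ⟨Finset.mem_range.2 hi, h6⟩) h5
    obtain ⟨t, ht⟩ := pat_post (R := k + 4) hW hI.unif (u := u) (by omega) (by
      have h5 : (k + 4) * (u + 1) ≤ (k + 4) * U := Nat.mul_le_mul_left _ hu
      rw [Nat.mul_add, Nat.mul_one] at h5
      omega) hcov
    exact not_clicks_of_pat j' (by omega) ht h2

end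

end Pool.Agent.L0h82.CE
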