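import Pool.Agent.Q206.CK.Defs

/-!
# The elimination variant of `k`-click Clickomania
-/

namespace Pool.Agent.L0h82.CE

open Pool.Agent.NPC Pool.Agent.H557R2.Fpt Pool.Agent.Q206.CK

/-- `k`-Click Elimination-Variant Clickomania: given a board (whose columns are not empty), can it
be emptied with at most `k` clicks?  The parameter is `k`. -/
def elimProblem : PProblem :=
  {y | ∃ B : Board, y.1 = bits B ∧ (∀ C ∈ B, C ≠ []) ∧ ∃ j ≤ y.2, Clicks j B []}

/-- The same problem on boards with at most `c` colours (the colours are the numbers less than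
`c`). -/
def elimProblemColours (c : ℕ) : PProblem :=
  {y | ∃ B : Board, y.1 = bits B ∧ (∀ C ∈ B, C ≠ []) ∧ (∀ C ∈ B, ∀ t ∈ C, t < c) ∧
    ∃ j ≤ y.2, Clicks j B []}

end Pool.Agent.L0h82.CE
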