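import Pool.Agent.L0h82.CE.Bwd
import Pool.Agent.Q206.CK.Fwd

/-!
# The board can be emptied if there is a cover
-/

namespace Pool.Agent.L0h82.CE

open Relation Pool.Agent.Q206.CK

/-- The board after the removal of all tiles of the colour `a`. -/
def elimC (a : ℕ) (B : Board) : Board :=
  (B.map fun C => C.filter fun t => decide (t ≠ a)).filter fun C => decide (C ≠ [])

theorem colF_filter (M : ℕ) (col ℓ : ℕ → ℕ) (a : ℕ) :
    (colF M col ℓ).filter (fun t => decide (t ≠ a)) =
      colF M col (fun i => if col i = a then 0 else ℓ i) := by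
  induction M with
  | zero => rfl
  | succ M ih =>
    rw [colF_succ, colF_succ, List.filter_append, ih]
    congr 1
    by_cases h : col M = a
    · rw [if_pos h]
      simp [h]
    · rw [if_neg h]
      simp [h]

theorem colF_congr {M : ℕ} {col ℓ col' ℓ' : ℕ → ℕ}
    (h : ∀ i < M, ℓ i = ℓ' i ∧ (0 < ℓ i → col i = col' i)) : colF M col ℓ = colF M col' ℓ' := by
  induction M with
  | zero => rfl
  | succ M ih =>
    rw [colF_succ, colF_succ, ih fun i hi => h i (by omega)]
    congr 1
    obtain ⟨h1, h2⟩ := h M (by omega)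
    rw [← h1]
    rcases Nat.eq_zero_or_pos (ℓ M) with h3 | h3
    · rw [h3]; rfl
    · rw [h2 h3]

/-- If all tiles of a colour are joined, then one click removes all of them. -/
theorem click_all {C M : ℕ} {col ℓ : ℕ → ℕ → ℕ} {x : ℕ × ℕ} {a : ℕ} (hx : Pres C M ℓ x)
    (ha : col x.1 x.2 = a)
    (h2 : 2 ≤ ℓ x.1 x.2 ∨ ∃ y, Link C M col ℓ x y)
    (hall : ∀ y, Pres C M ℓ y → col y.1 y.2 = a → ReflTransGen (Link C M col ℓ) x y) :
    Click (boardF C M col ℓ) (elimC a (boardF C M col ℓ)) := by
  classical
  subst ha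
  rw [click_iff]
  refine ⟨x, hx, h2, ?_⟩
  unfold elimC
  congr 1
  unfold boardF
  rw [List.map_map]
  refine List.map_congr_left fun c hc => ?_
  rw [List.mem_range] at hc
  show (colF M (col c) (ℓ c)).filter _ = _
  rw [colF_filter]
  refine colF_congr fun i hi => ?_
  refine ⟨?_, fun _ => rfl⟩
  unfold cut
  by_cases h : (c, i) ∈ comp C M col ℓ x
  · rw [if_pos h, if_pos (comp_pres hx h).2.symm]
  · rw [if_neg h]
    by_cases h3 : col c i = col x.1 x.2
    · rw [if_pos h3]
      by_contra h4
      exact h (hall (c, i) ⟨hc, hi, Nat.pos_of_ne_zero (Ne.symm h4)⟩ h3)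
    · rw [if_neg h3]

theorem elimC_boardF (a C M : ℕ) (col ℓ : ℕ → ℕ → ℕ) : elimC a (boardF C M col ℓ) =
    (boardF C M col fun c i => if col c i = a then 0 else ℓ c i).filter
      fun C => decide (C ≠ []) := by
  unfold elimC
  congr 1
  unfold boardF
  rw [List.map_map]
  refine List.map_congr_left fun c _ => ?_
  exact colF_filter M (col c) (ℓ c) a

theorem colF_ne_nil {M : ℕ} {col ℓ : ℕ → ℕ} {i : ℕ} (hi : i < M) (h : 0 < ℓ i) :
    colF M col ℓ ≠ [] := by
  intro h0
  have h1 := length_colF M col ℓ
  rw [h0] at h1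
  have h2 := off_mono ℓ (show i + 1 ≤ M by omega)
  rw [off_succ] at h2
  simp at h1
  omega

theorem colF_eq_replicate {M : ℕ} {col ℓ : ℕ → ℕ} {a : ℕ} (h : ∀ i < M, 0 < ℓ i → col i = a) :
    colF M col ℓ = List.replicate (off ℓ M) a := by
  induction M with
  | zero => rfl
  | succ M ih =>
    rw [colF_succ, off_succ, ih fun i hi => h i (by omega), List.replicate_add]
    congr 1
    rcases Nat.eq_zero_or_pos (ℓ M) with h3 | h3
    · rw [h3]; rfl
    · rw [h M (by omega) h3]

section
variable {n R W : ℕ} {cov : ℕ → ℕ → Bool} {X : Set (ℕ × ℕ)} {D : Finset ℕ}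

/-- The layers of the sets in `D`. -/
def XD (W : ℕ) (D : Finset ℕ) : Set (ℕ × ℕ) := {x | x.1 < W ∧ ∃ j ∈ D, x.2 = 2 * j}

theorem unif_XD (hW : 0 < W) (hD : ∀ j ∈ D, j < n) : Unif n W (XD W D) := by
  constructor
  · rintro c - ⟨-, j, hj, h⟩
    have := hD j hj
    simp only at h
    omega
  · rintro c i hi ⟨-, j, hj, h⟩
    have := hD j hj
    simp only at h
    omega
  · intro c hc i _
    constructor
    · rintro ⟨-, j, hj, h⟩; exact ⟨hW, j, hj, h⟩
    · rintro ⟨-, j, hj, h⟩; exact ⟨hc, j, hj, h⟩

theorem odd_notMem_XD {c i : ℕ} (h : i % 2 = 1) : (c, i) ∉ XD W D := by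
  rintro ⟨-, j, -, h1⟩
  simp only at h1
  omega

theorem click_XD (hW : W % 2 = 1) (hD : ∀ j ∈ D, j < n) {j : ℕ} (hj : j < n) (hjD : j ∉ D) :
    Click (Bd n R W cov (XD W D)) (Bd n R W cov (XD W (insert j D))) := by
  have hWpos : 0 < W := by omega
  have hX := unif_XD (n := n) hWpos hD
  have hne : ∀ c, (c, 2 * j) ∉ XD W D := by
    rintro c ⟨-, j', hj', h⟩
    have : j = j' := by simp only at h; omega
    exact hjD (this ▸ hj')
  have hp : Pr n R W cov (XD W D) (0, 2 * j) := pres_layer hWpos (by omega) (hne 0)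
  rw [click_iff]
  refine ⟨(0, 2 * j), hp, Or.inl ?_, ?_⟩
  · show 2 ≤ L n R W cov (XD W D) 0 (2 * j)
    rw [show L n R W cov (XD W D) 0 (2 * j) = _ from cut_of_notMem (hne 0),
      el_layer hWpos (by omega)]
    omega
  · have e : XD W (insert j D) = XD W D ∪ Cp n R W cov (XD W D) (0, 2 * j) := by
      ext y
      constructor
      · rintro ⟨h1, j', hj', h2⟩
        rw [Finset.mem_insert] at hj'
        rcases hj' with h3 | h3
        · right
          subst h3
          have := conn_layer (R := R) (cov := cov) hX (i := 2 * j') (by omega)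
            (hne 0) (c := 0) (c' := y.1) hWpos h1
          have e : y = (y.1, 2 * j') := Prod.ext rfl h2
          rw [e]
          exact this
        · exact Or.inl ⟨h1, j', h3, h2⟩
      · rintro (⟨h1, j', h2, h3⟩ | h)
        · exact ⟨h1, j', Finset.mem_insert_of_mem h2, h3⟩
        · obtain ⟨h2, h3, h4⟩ := comp_run hW hX hp (by show 2 * j < _; omega) h
          simp only at h3 h4
          refine ⟨h2.1, j, Finset.mem_insert_self _ _, ?_⟩
          by_contra hne'
          rcases lt_or_gt_of_ne hne' with h5 | h5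
          · have := h4 (y.2 + 1) (by omega) (odd_notMem_XD (by omega)) (Or.inr ⟨by omega, by omega⟩)
            omega
          · have := h4 (2 * j + 1) (by omega) (odd_notMem_XD (by omega)) (Or.inl ⟨by omega, by omega⟩)
            omega
    rw [cut_cut, ← e]
    exact (filter_board (unif_XD hWpos (by
      intro i hi
      rcases Finset.mem_insert.1 hi with h | h
      · rw [h]; exact hj
      · exact hD i h))).symm

theorem clicks_XD (hW : W % 2 = 1) (D : Finset ℕ) (hD : ∀ j ∈ D, j < n) :
    Clicks D.card (board0 n R W cov) (Bd n R W cov (XD W D)) := by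
  classical
  induction D using Finset.induction_on with
  | empty =>
    have e : XD W ∅ = ∅ := by
      ext x
      constructor
      · rintro ⟨-, j, hj, -⟩
        exact absurd hj (Finset.notMem_empty j)
      · intro h; exact absurd h (Set.notMem_empty _)
    rw [e, board0_eq]
    rfl
  | insert j D hj ih =>
    rw [Finset.card_insert_of_notMem hj]
    exact clicks_succ (ih fun j hj => hD j (Finset.mem_insert_of_mem hj))
      (click_XD hW (fun i hi => hD i (Finset.mem_insert_of_mem hi))
        (hD j (Finset.mem_insert_self _ _)) hj)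

/-- The click on the bars. -/
theorem click_main (hW : W % 2 = 1) (hX : Unif n W X)
    (hcov : ∀ c < W, c % 2 = 1 → ∃ j < n, cov (c / 2 / R) j = true ∧ (0, 2 * j) ∈ X) :
    Click (Bd n R W cov X) (elimC 3 (Bd n R W cov X)) := by
  refine click_all (x := (0, 2 * n)) (pres_main hX (Nat.zero_le _)) (ec_main (Nat.zero_le _))
    (Or.inl ?_) ?_
  · show 2 ≤ L n R W cov X 0 (2 * n)
    rw [show L n R W cov X 0 (2 * n) = _ from cut_of_notMem (hX.main 0 (Nat.zero_le _)),
      el_bar (by omega) rfl]
    omega
  · intro y hy hy3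
    rcases ec_eq_three hy hy3 with h | h
    · have e : y = (y.1, 2 * n) := Prod.ext rfl h.1
      rw [e]
      exact conn_main hW hX (Nat.zero_le _) h.2
    · have e : y = (y.1, 2 * n + 2) := Prod.ext rfl h.1
      rw [e]
      refine ReflTransGen.tail (conn_main hW hX (Nat.zero_le _) (show y.1 - 1 ≤ W by omega)) ?_
      exact (link_T hX h.2.1 (c' := y.1 - 1) (by omega) h.2.2 (Or.inr (by omega))
        (hcov y.1 h.2.1 h.2.2)).symm

/-- The old number of a column after the removal of the blocker. -/
def phi (W c : ℕ) : ℕ := if c < W then c else W + 1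

noncomputable abbrev L1 (n R W : ℕ) (cov : ℕ → ℕ → Bool) (X : Set (ℕ × ℕ)) (c i : ℕ) : ℕ :=
  if ec n W (phi W c) i = 3 then 0 else L n R W cov X (phi W c) i

abbrev E1 (n W c i : ℕ) : ℕ := ec n W (phi W c) i

theorem top_pos (hX : Unif n W X) (c : ℕ) (hc : c < W ∨ c = W + 1) :
    L n R W cov X c (2 * n + 1) = 1 := by
  rw [show L n R W cov X c (2 * n + 1) = _ from cut_of_notMem (hX.top c _ le_rfl)]
  rcases hc with hc | hc
  · exact el_top hc
  · rw [hc]; exact el_strip_cap

theorem ec_top (c : ℕ) : ec n W c (2 * n + 1) = if c % 2 = 1 then 0 else 2 := by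
  unfold ec; rw [if_neg (by omega), if_neg (by omega), if_pos rfl]

theorem ec_top_ne_three (c : ℕ) : ec n W c (2 * n + 1) ≠ 3 := by
  rw [ec_top]; split_ifs <;> omega

theorem ec_top_ne_one (c : ℕ) : ec n W c (2 * n + 1) ≠ 1 := by
  rw [ec_top]; split_ifs <;> omega

/-- The board after the click on the bars. -/
theorem elim_three (hX : Unif n W X) : elimC 3 (Bd n R W cov X) =
    boardF (W + 1) (2 * n + 3) (E1 n W) (L1 n R W cov X) := by
  rw [elimC_boardF]
  have hblock : colF (2 * n + 3) (ec n W W)
      (fun i => if ec n W W i = 3 then 0 else L n R W cov X W i) = [] := by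
    have h := length_colF (2 * n + 3) (ec n W W)
      (fun i => if ec n W W i = 3 then 0 else L n R W cov X W i)
    rw [← List.length_eq_zero_iff, h]
    unfold off
    refine Finset.sum_eq_zero fun i hi => ?_
    by_cases h3 : ec n W W i = 3
    · rw [if_pos h3]
    · rw [if_neg h3]
      have h4 : i ≠ 2 * n := by
        rintro rfl
        exact h3 (ec_main le_rfl)
      by_cases h5 : (W, i) ∈ X
      · exact cut_of_mem h5
      · rw [show L n R W cov X W i = _ from cut_of_notMem h5]
        exact el_high_of_ne le_rfl h4 (Or.inr (by omega))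
  have hne : ∀ c, c < W ∨ c = W + 1 → colF (2 * n + 3) (ec n W c)
      (fun i => if ec n W c i = 3 then 0 else L n R W cov X c i) ≠ [] := by
    intro c hc
    refine colF_ne_nil (i := 2 * n + 1) (by omega) ?_
    rw [if_neg (ec_top_ne_three c), top_pos hX c hc]
    omega
  unfold boardF
  rw [List.range_succ, List.range_succ, List.map_append, List.map_append, List.filter_append,
    List.filter_append, List.map_append]
  simp only [List.map_cons, List.map_nil]
  rw [hblock]
  have h1 : ((List.range W).map fun c => colF (2 * n + 3) (ec n W c)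
      (fun i => if ec n W c i = 3 then 0 else L n R W cov X c i)).filter
        (fun C => decide (C ≠ [])) =
      (List.range W).map fun c => colF (2 * n + 3) (E1 n W c) (L1 n R W cov X c) := by
    rw [List.filter_eq_self.2]
    · refine List.map_congr_left fun c hc => ?_
      rw [List.mem_range] at hc
      have : phi W c = c := if_pos hc
      unfold L1 E1
      rw [this]
    · intro l hl
      rw [List.mem_map] at hl
      obtain ⟨c, hc, rfl⟩ := hl
      rw [List.mem_range] at hc
      rw [decide_eq_true_eq]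
      exact hne c (Or.inl hc)
  rw [h1]
  have h2 : phi W W = W + 1 := if_neg (by omega)
  have h3 := hne (W + 1) (Or.inr rfl)
  have h4 : List.filter (fun C => decide (C ≠ []))
      [colF (2 * n + 3) (ec n W (W + 1))
        (fun i => if ec n W (W + 1) i = 3 then 0 else L n R W cov X (W + 1) i)] =
      [colF (2 * n + 3) (E1 n W W) (L1 n R W cov X W)] := by
    unfold L1 E1
    rw [h2, List.filter_cons_of_pos (by rw [decide_eq_true_eq]; exact h3), List.filter_nil]
  rw [h4]
  simp

theorem L1_lt {c i : ℕ} (hc : c < W) (hi : i < 2 * n) :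
    L1 n R W cov X c i = L n R W cov X c i := by
  unfold L1
  rw [show phi W c = c from if_pos hc, if_neg]
  unfold ec
  rw [if_pos hi]
  omega

theorem off_L1 {c i : ℕ} (hc : c < W) (hi : i ≤ 2 * n) :
    off (L1 n R W cov X c) i = off (L n R W cov X c) i := by
  unfold off
  refine Finset.sum_congr rfl fun j hj => ?_
  rw [Finset.mem_range] at hj
  exact L1_lt hc (by omega)

theorem L1_strip (h : (W + 1, 2 * n) ∉ X) : L1 n R W cov X W (2 * n) = 2 * n * (n + 2) + 1 := by
  unfold L1
  rw [show phi W W = W + 1 from if_neg (by omega), if_neg,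
    show L n R W cov X (W + 1) (2 * n) = _ from cut_of_notMem h, el_high (by omega)]
  unfold ec
  rw [if_neg (by omega), if_pos rfl, if_pos rfl]
  omega

theorem off_L1_strip : off (L1 n R W cov X W) (2 * n) = 0 := by
  unfold off
  refine Finset.sum_eq_zero fun j hj => ?_
  rw [Finset.mem_range] at hj
  unfold L1
  rw [show phi W W = W + 1 from if_neg (by omega)]
  by_cases h : ec n W (W + 1) j = 3
  · rw [if_pos h]
  · rw [if_neg h]
    by_cases h3 : (W + 1, j) ∈ X
    · exact cut_of_mem h3
    · rw [show L n R W cov X (W + 1) j = _ from cut_of_notMem h3]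
      exact el_high_of_ne (by omega) (by omega) (Or.inl (by omega))

/-- The links after the click on the bars. -/
abbrev Lk1 (n R W : ℕ) (cov : ℕ → ℕ → Bool) (X : Set (ℕ × ℕ)) (x y : ℕ × ℕ) : Prop :=
  Link (W + 1) (2 * n + 3) (E1 n W) (L1 n R W cov X) x y

theorem pres1 {c i : ℕ} (hc : c < W) (h2 : i < 2 * n) (h3 : (c, i) ∉ X) :
    Pres (W + 1) (2 * n + 3) (L1 n R W cov X) (c, i) := by
  refine ⟨by show c < _; omega, by show i < _; omega, ?_⟩
  show 0 < L1 n R W cov X c i
  rw [L1_lt hc h2]
  exact (pres_layer hc h2 h3).2.2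

/-- The click on the separators. -/
theorem click_sep (hn : 0 < n) (hW : W % 2 = 1) (hX : Unif n W X)
    (hodd : ∀ i, i % 2 = 1 → i < 2 * n → (0, i) ∉ X) (hs : (W + 1, 2 * n) ∉ X) :
    Click (boardF (W + 1) (2 * n + 3) (E1 n W) (L1 n R W cov X))
      (elimC 1 (boardF (W + 1) (2 * n + 3) (E1 n W) (L1 n R W cov X))) := by
  have hWpos : 0 < W := by omega
  have hno : ∀ c < W, ∀ i, i % 2 = 1 → i < 2 * n → (c, i) ∉ X := fun c hc i h1 h2 h3 =>
    hodd i h1 h2 ((hX.unif c hc i h2).1 h3)
  have hcol : ∀ c < W, ∀ i < 2 * n, E1 n W c i = i % 2 := by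
    intro c hc i hi
    unfold E1 ec
    rw [if_pos hi]
  have e1 : E1 n W W (2 * n) = 1 := by
    unfold E1
    rw [show phi W W = W + 1 from if_neg (by omega)]
    unfold ec
    rw [if_neg (by omega), if_pos rfl, if_pos rfl]
  have lk : ∀ c, c + 1 < W → ∀ i, i % 2 = 1 → i < 2 * n → Lk1 n R W cov X (c, i) (c + 1, i) := by
    intro c hc i h1 h2
    obtain ⟨-, -, -, ht⟩ := link_layer (R := R) (cov := cov) hX (c := c) (c' := c + 1)
      (by omega) hc (Or.inl rfl) h2 (hno c (by omega) i h1 h2)
    refine ⟨pres1 (by omega) h2 (hno c (by omega) i h1 h2), pres1 hc h2 (hno _ hc i h1 h2), ?_, ?_⟩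
    · show E1 n W c i = E1 n W (c + 1) i
      rw [hcol c (by omega) i h2, hcol _ hc i h2]
    · rcases ht with ⟨h3, -⟩ | ⟨h3, h4, h5⟩
      · have h3' : c = c + 1 := h3
        omega
      · refine Or.inr ⟨h3, ?_, ?_⟩
        · show off (L1 n R W cov X c) i < off (L1 n R W cov X (c + 1)) (i + 1)
          rw [off_L1 (by omega) (by omega), off_L1 hc (by omega)]
          exact h4
        · show off (L1 n R W cov X (c + 1)) i < off (L1 n R W cov X c) (i + 1)
          rw [off_L1 (by omega) (by omega), off_L1 (by omega) (by omega)]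
          exact h5
  have lks : ∀ i, i % 2 = 1 → i < 2 * n → Lk1 n R W cov X (W - 1, i) (W, 2 * n) := by
    intro i h1 h2
    refine ⟨pres1 (by omega) h2 (hno _ (by omega) i h1 h2), ⟨by show W < _; omega,
      by show 2 * n < _; omega, ?_⟩, ?_, Or.inr ⟨Or.inl (by show W - 1 + 1 = W; omega), ?_, ?_⟩⟩
    · show 0 < L1 n R W cov X W (2 * n)
      rw [L1_strip hs]; omega
    · show E1 n W (W - 1) i = E1 n W W (2 * n)
      rw [e1, hcol _ (by omega) i h2, h1]
    · show off (L1 n R W cov X (W - 1)) i < off (L1 n R W cov X W) (2 * n + 1)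
      have := off_small (R := R) (cov := cov) (X := X) (n := n) (W := W) (c := W - 1) (i := i)
        (by omega) (by omega)
      rw [off_succ, off_L1_strip, L1_strip hs, off_L1 (c := W - 1) (i := i) (by omega) (by omega)]
      omega
    · show off (L1 n R W cov X W) (2 * n) < off (L1 n R W cov X (W - 1)) (i + 1)
      have := (pres1 (W := W) (R := R) (cov := cov) (c := W - 1) (by omega) h2
        (hno (W - 1) (by omega) i h1 h2)).2.2
      have h3 : 0 < L1 n R W cov X (W - 1) i := this
      rw [off_L1_strip, off_succ]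
      omega
  have conn : ∀ d c, c + d < W → ∀ i, i % 2 = 1 → i < 2 * n →
      ReflTransGen (Lk1 n R W cov X) (c, i) (c + d, i) ∧
      ReflTransGen (Lk1 n R W cov X) (c + d, i) (c, i) := by
    intro d
    induction d with
    | zero => intro c _ i _ _; exact ⟨ReflTransGen.refl, ReflTransGen.refl⟩
    | succ d ih =>
      intro c hc i h1 h2
      obtain ⟨h5, h6⟩ := ih c (by omega) i h1 h2
      have h7 := lk (c + d) (by omega) i h1 h2
      exact ⟨h5.tail h7, ReflTransGen.head h7.symm h6⟩
  have to_strip : ReflTransGen (Lk1 n R W cov X) (0, 1) (W, 2 * n) := by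
    have h1 := (conn (W - 1) 0 (by omega) 1 rfl (by omega)).1
    rw [Nat.zero_add] at h1
    exact h1.tail (lks 1 rfl (by omega))
  refine click_all (x := (0, 1)) (pres1 hWpos (by omega) (hodd 1 rfl (by omega)))
    (hcol 0 hWpos 1 (by omega)) (Or.inl ?_) ?_
  · show 2 ≤ L1 n R W cov X 0 1
    rw [L1_lt hWpos (by omega), show L n R W cov X 0 1 = _ from
      cut_of_notMem (hodd 1 rfl (by omega)), el_layer hWpos (by omega)]
    omega
  · rintro ⟨c, i⟩ hy hc
    have hc' : ec n W (phi W c) i = 1 := hc
    have hcW : c < W + 1 := hy.1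
    have hpos : 0 < L1 n R W cov X c i := hy.2.2
    have hi3 : i < 2 * n + 3 := hy.2.1
    have hi : (i < 2 * n ∧ i % 2 = 1) ∨ (i = 2 * n ∧ phi W c = W + 1) := by
      unfold ec at hc'
      by_cases h1 : i < 2 * n
      · rw [if_pos h1] at hc'
        exact Or.inl ⟨h1, hc'⟩
      · rw [if_neg h1] at hc'
        by_cases h2 : i = 2 * n
        · rw [if_pos h2] at hc'
          by_cases h3 : phi W c = W + 1
          · exact Or.inr ⟨h2, h3⟩
          · rw [if_neg h3] at hc'; omega
        · rw [if_neg h2] at hc'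
          split_ifs at hc' <;> omega
    rcases hi with ⟨h1, h2⟩ | ⟨h1, h2⟩
    · have hcW' : c < W := by
        by_contra h3
        have h4 : c = W := by omega
        rw [h4] at hpos
        have h5 : L1 n R W cov X W i = 0 := by
          unfold L1
          rw [show phi W W = W + 1 from if_neg (by omega)]
          by_cases h : ec n W (W + 1) i = 3
          · rw [if_pos h]
          · rw [if_neg h]
            by_cases h3 : (W + 1, i) ∈ X
            · exact cut_of_mem h3
            · rw [show L n R W cov X (W + 1) i = _ from cut_of_notMem h3]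
              exact el_high_of_ne (by omega) (by omega) (Or.inl (by omega))
        omega
      have h3 := (conn (W - 1 - c) c (by omega) i h2 h1).2
      rw [show c + (W - 1 - c) = W - 1 by omega] at h3
      exact (to_strip.tail (lks i h2 h1).symm).trans h3
    · have h3 : c = W := by
        by_contra h3
        have : phi W c = c := if_pos (by omega)
        omega
      rw [h3, h1]
      exact to_strip

/-- The heights of the columns after the click on the separators. -/
noncomputable def hh (n R W : ℕ) (cov : ℕ → ℕ → Bool) (X : Set (ℕ × ℕ)) (c : ℕ) : ℕ :=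
  if c < W then off (fun i => if E1 n W c i = 1 then 0 else L1 n R W cov X c i) (2 * n) else 0

/-- The colours after the click on the separators. -/
def E2 (W c i : ℕ) : ℕ := if i = 0 then 0 else if c < W ∧ c % 2 = 1 then 0 else 2

/-- The lengths after the click on the separators. -/
noncomputable def L2 (n R W : ℕ) (cov : ℕ → ℕ → Bool) (X : Set (ℕ × ℕ)) (c i : ℕ) : ℕ :=
  if i = 0 then hh n R W cov X c else 1

theorem elim_one (hW : W % 2 = 1) (hX : Unif n W X) :
    elimC 1 (boardF (W + 1) (2 * n + 3) (E1 n W) (L1 n R W cov X)) =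
      boardF (W + 1) 2 (E2 W) (L2 n R W cov X) := by
  have hcol : ∀ c < W + 1, colF (2 * n + 3) (E1 n W c)
      (fun i => if E1 n W c i = 1 then 0 else L1 n R W cov X c i) =
      colF 2 (E2 W c) (L2 n R W cov X c) := by
    intro c hc
    have hphi : phi W c < W ∨ phi W c = W + 1 := by
      unfold phi
      split_ifs with h
      · exact Or.inl h
      · exact Or.inr rfl
    have hT : (if E1 n W c (2 * n + 2) = 1 then 0 else L1 n R W cov X c (2 * n + 2)) = 0 := by
      have : ec n W (phi W c) (2 * n + 2) = 3 := by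
        unfold ec; rw [if_neg (by omega), if_neg (by omega), if_neg (by omega)]
      unfold E1 L1
      rw [this, if_neg (by omega), if_pos rfl]
    have htop : (if E1 n W c (2 * n + 1) = 1 then 0 else L1 n R W cov X c (2 * n + 1)) = 1 := by
      unfold E1 L1
      rw [if_neg (ec_top_ne_one _), if_neg (ec_top_ne_three _)]
      exact top_pos hX _ hphi
    have hmain : (if E1 n W c (2 * n) = 1 then 0 else L1 n R W cov X c (2 * n)) = 0 := by
      unfold E1 L1
      rcases hphi with h | h
      · rw [ec_main (by omega), if_neg (by omega), if_pos rfl]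
      · rw [h]
        have : ec n W (W + 1) (2 * n) = 1 := by
          unfold ec; rw [if_neg (by omega), if_pos rfl, if_pos rfl]
        rw [this, if_pos rfl]
    rw [show 2 * n + 3 = 2 * n + 2 + 1 from rfl, colF_succ, hT, show 2 * n + 2 = 2 * n + 1 + 1 from rfl,
      colF_succ, htop, colF_succ, hmain, show (2 : ℕ) = 0 + 1 + 1 from rfl, colF_succ, colF_succ]
    have h0 : colF 0 (E2 W c) (L2 n R W cov X c) = [] := rfl
    have ht : E1 n W c (2 * n + 1) = E2 W c 1 := by
      have e2 : E2 W c 1 = if c < W ∧ c % 2 = 1 then 0 else 2 := by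
        unfold E2; rw [if_neg (by omega)]
      rw [e2, show E1 n W c (2 * n + 1) = _ from ec_top (phi W c)]
      by_cases h : c < W
      · rw [show phi W c = c from if_pos h]
        by_cases h2 : c % 2 = 1
        · rw [if_pos h2, if_pos ⟨h, h2⟩]
        · rw [if_neg h2, if_neg fun h' => h2 h'.2]
      · rw [show phi W c = W + 1 from if_neg h, if_neg (by omega), if_neg fun h' => h h'.1]
    have hl : colF (2 * n) (E1 n W c) (fun i => if E1 n W c i = 1 then 0 else L1 n R W cov X c i) =
        List.replicate (hh n R W cov X c) 0 := by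
      rw [colF_eq_replicate (a := 0)]
      · unfold hh
        by_cases h : c < W
        · rw [if_pos h]
        · rw [if_neg h]
          congr 1
          unfold off
          refine Finset.sum_eq_zero fun i hi => ?_
          rw [Finset.mem_range] at hi
          by_cases h1 : E1 n W c i = 1
          · rw [if_pos h1]
          · rw [if_neg h1]
            unfold L1
            rw [show phi W c = W + 1 from if_neg h]
            by_cases h3 : ec n W (W + 1) i = 3
            · rw [if_pos h3]
            · rw [if_neg h3]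
              by_cases h4 : (W + 1, i) ∈ X
              · exact cut_of_mem h4
              · rw [show L n R W cov X (W + 1) i = _ from cut_of_notMem h4]
                exact el_high_of_ne (by omega) (by omega) (Or.inl (by omega))
      · intro i hi h
        by_cases h1 : E1 n W c i = 1
        · rw [if_pos h1] at h; omega
        · unfold E1 ec at h1 ⊢
          rw [if_pos hi] at h1 ⊢
          omega
    rw [h0, hl]
    simp only [Nat.zero_add, List.nil_append, List.replicate_zero, List.append_nil]
    rw [ht]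
    rfl
  rw [elimC_boardF]
  have h1 : (boardF (W + 1) (2 * n + 3) (E1 n W)
      fun c i => if E1 n W c i = 1 then 0 else L1 n R W cov X c i) =
      boardF (W + 1) 2 (E2 W) (L2 n R W cov X) := by
    unfold boardF
    refine List.map_congr_left fun c hc => ?_
    rw [List.mem_range] at hc
    exact hcol c hc
  rw [h1, List.filter_eq_self]
  intro l hl
  unfold boardF at hl
  rw [List.mem_map] at hl
  obtain ⟨c, hc, rfl⟩ := hl
  rw [decide_eq_true_eq]
  exact colF_ne_nil (i := 1) (by omega) (by unfold L2; rw [if_neg (by omega)]; omega)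

theorem hh_pos {d : ℕ} (hd : d < n) (hdX : ∀ c < W, (c, 2 * d) ∉ X) {c : ℕ} (hc : c < W) :
    0 < hh n R W cov X c := by
  unfold hh
  rw [if_pos hc]
  have h1 := off_mono (fun i => if E1 n W c i = 1 then 0 else L1 n R W cov X c i)
    (show 2 * d + 1 ≤ 2 * n by omega)
  rw [off_succ] at h1
  have h2 : (if E1 n W c (2 * d) = 1 then 0 else L1 n R W cov X c (2 * d)) =
      L n R W cov X c (2 * d) := by
    rw [if_neg, L1_lt hc (by omega)]
    unfold E1 ec
    rw [if_pos (by omega)]
    omega
  simp only [h2] at h1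
  have h3 : 0 < L n R W cov X c (2 * d) := (pres_layer (R := R) (cov := cov) hc (by omega)
    (hdX c hc)).2.2
  omega

/-- The click on the layers. -/
theorem click_layers (hW : W % 2 = 1) {d : ℕ} (hd : d < n) (hdX : ∀ c < W, (c, 2 * d) ∉ X) :
    Click (boardF (W + 1) 2 (E2 W) (L2 n R W cov X))
      (elimC 0 (boardF (W + 1) 2 (E2 W) (L2 n R W cov X))) := by
  have hWpos : 0 < W := by omega
  have hL0 : ∀ c < W, 0 < L2 n R W cov X c 0 := fun c hc => by
    unfold L2; rw [if_pos rfl]; exact hh_pos hd hdX hc
  have lk : ∀ c, c + 1 < W → Link (W + 1) 2 (E2 W) (L2 n R W cov X) (c, 0) (c + 1, 0) := by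
    intro c hc
    refine ⟨⟨by show c < _; omega, by show 0 < _; omega, hL0 c (by omega)⟩,
      ⟨by show c + 1 < _; omega, by show 0 < _; omega, hL0 _ hc⟩, rfl, Or.inr ⟨Or.inl rfl, ?_, ?_⟩⟩
    · show off (L2 n R W cov X c) 0 < off (L2 n R W cov X (c + 1)) (0 + 1)
      rw [off_succ, off_zero, off_zero]
      have := hL0 _ hc
      omega
    · show off (L2 n R W cov X (c + 1)) 0 < off (L2 n R W cov X c) (0 + 1)
      rw [off_succ, off_zero, off_zero]
      have := hL0 c (by omega)
      omega
  have conn : ∀ c, c < W → ReflTransGen (Link (W + 1) 2 (E2 W) (L2 n R W cov X)) (0, 0) (c, 0) := by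
    intro c
    induction c with
    | zero => intro _; exact ReflTransGen.refl
    | succ c ih => intro hc; exact (ih (by omega)).tail (lk c hc)
  have hp0 : Pres (W + 1) 2 (L2 n R W cov X) (0, 0) :=
    ⟨by show 0 < _; omega, by show 0 < _; omega, hL0 0 hWpos⟩
  have lkv : ∀ c, c < W → c % 2 = 1 →
      Link (W + 1) 2 (E2 W) (L2 n R W cov X) (c, 0) (c, 1) := by
    intro c hc ho
    refine ⟨⟨by show c < _; omega, by show 0 < _; omega, hL0 c hc⟩,
      ⟨by show c < _; omega, by show 1 < _; omega, ?_⟩, ?_, Or.inl ⟨rfl, Or.inl rfl⟩⟩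
    · show 0 < L2 n R W cov X c 1
      unfold L2; rw [if_neg (by omega)]; omega
    · show E2 W c 0 = E2 W c 1
      unfold E2
      rw [if_pos rfl, if_neg (by omega), if_pos ⟨hc, ho⟩]
  refine click_all (x := (0, 0)) hp0 rfl ?_ ?_
  · by_cases h1 : 1 < W
    · exact Or.inr ⟨_, lk 0 h1⟩
    · left
      -- only one column of layers
      have hW1 : W = 1 := by omega
      have hX' : (0, 2 * d) ∉ X := hdX 0 hWpos
      show 2 ≤ L2 n R W cov X 0 0
      unfold L2 hh
      rw [if_pos rfl, if_pos hWpos]
      have h1 := off_mono (fun i => if E1 n W 0 i = 1 then 0 else L1 n R W cov X 0 i)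
        (show 2 * d + 1 ≤ 2 * n by omega)
      rw [off_succ] at h1
      have h2 : (if E1 n W 0 (2 * d) = 1 then 0 else L1 n R W cov X 0 (2 * d)) =
          L n R W cov X 0 (2 * d) := by
        rw [if_neg, L1_lt hWpos (by omega)]
        unfold E1 ec
        rw [if_pos (by omega)]
        omega
      simp only [h2] at h1
      rw [show L n R W cov X 0 (2 * d) = _ from cut_of_notMem hX', el_layer hWpos (by omega)] at h1
      omega
  · rintro ⟨c, i⟩ hy hc
    have hcW : c < W + 1 := hy.1
    have hi : i < 2 := hy.2.1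
    have hpos : 0 < L2 n R W cov X c i := hy.2.2
    have hc' : E2 W c i = 0 := hc
    rcases (show i = 0 ∨ i = 1 by omega) with h | h
    · subst h
      have : c < W := by
        by_contra h1
        unfold L2 hh at hpos
        rw [if_pos rfl, if_neg h1] at hpos
        omega
      exact conn c this
    · subst h
      unfold E2 at hc'
      rw [if_neg (by omega)] at hc'
      split_ifs at hc' with h1
      exact (conn c h1.1).tail (lkv c h1.1 h1.2)

/-- After the click on the layers all columns consist of one tile of the colour `2`. -/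
theorem elim_zero (hW : W % 2 = 1) : ∃ m, 2 ≤ m ∧
    elimC 0 (boardF (W + 1) 2 (E2 W) (L2 n R W cov X)) = boardF m 1 (fun _ _ => 2) fun _ _ => 1 := by
  have hWpos : 0 < W := by omega
  have hcol : ∀ c, (colF 2 (E2 W c) (L2 n R W cov X c)).filter (fun t => decide (t ≠ 0)) =
      if c < W ∧ c % 2 = 1 then [] else [2] := by
    intro c
    rw [colF_filter, show (2 : ℕ) = 0 + 1 + 1 from rfl, colF_succ, colF_succ]
    have h0 : ∀ a b, colF 0 a b = [] := fun _ _ => rfl
    have h1 : E2 W c 0 = 0 := if_pos rfl
    have h2 : E2 W c (0 + 1) = if c < W ∧ c % 2 = 1 then 0 else 2 := by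
      unfold E2; rw [if_neg (by omega)]
    have h3 : L2 n R W cov X c (0 + 1) = 1 := by unfold L2; rw [if_neg (by omega)]
    rw [h0, h1, if_pos rfl, h2, h3]
    split_ifs <;> simp_all
  have hall : ∀ C ∈ elimC 0 (boardF (W + 1) 2 (E2 W) (L2 n R W cov X)), C = [2] := by
    intro C hC
    unfold elimC at hC
    rw [List.mem_filter, List.mem_map, decide_eq_true_eq] at hC
    obtain ⟨⟨D, hD, rfl⟩, hne⟩ := hC
    unfold boardF at hD
    rw [List.mem_map] at hD
    obtain ⟨c, -, rfl⟩ := hD
    rw [hcol] at hne ⊢
    split_ifs at hne ⊢ with h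
    · exact absurd rfl hne
    · rfl
  refine ⟨(elimC 0 (boardF (W + 1) 2 (E2 W) (L2 n R W cov X))).length, ?_, ?_⟩
  · -- the columns 0 and W
    have e : elimC 0 (boardF (W + 1) 2 (E2 W) (L2 n R W cov X)) =
        ((List.range (W + 1)).map fun c => if c < W ∧ c % 2 = 1 then ([] : List ℕ) else [2]).filter
          fun C => decide (C ≠ []) := by
      unfold elimC boardF
      rw [List.map_map]
      congr 1
      refine List.map_congr_left fun c _ => ?_
      exact hcol c
    rw [e, List.range_succ, List.map_append, List.filter_append, List.length_append]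
    obtain ⟨W', rfl⟩ : ∃ W', W = W' + 1 := ⟨W - 1, by omega⟩
    rw [List.range_succ_eq_map]
    simp
  · have h1 := List.eq_replicate_of_mem hall
    conv_lhs => rw [h1]
    unfold boardF
    symm
    rw [List.eq_replicate_iff]
    refine ⟨by simp, ?_⟩
    intro C hC
    rw [List.mem_map] at hC
    obtain ⟨c, -, rfl⟩ := hC
    rfl

theorem click_last {m : ℕ} (hm : 2 ≤ m) :
    Click (boardF m 1 (fun _ _ => 2) fun _ _ => 1) [] := by
  have lk : ∀ c, c + 1 < m → Link m 1 (fun _ _ => 2) (fun _ _ => 1) (c, 0) (c + 1, 0) := by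
    intro c hc
    refine ⟨⟨by show c < _; omega, by show 0 < 1; omega, by show 0 < 1; omega⟩,
      ⟨by show c + 1 < _; omega, by show 0 < 1; omega, by show 0 < 1; omega⟩, rfl,
      Or.inr ⟨Or.inl rfl, ?_, ?_⟩⟩
    · show off (fun _ => 1) 0 < off (fun _ => 1) (0 + 1)
      simp [off]
    · show off (fun _ => 1) 0 < off (fun _ => 1) (0 + 1)
      simp [off]
  have conn : ∀ c, c < m → ReflTransGen (Link m 1 (fun _ _ => 2) fun _ _ => 1) (0, 0) (c, 0) := by
    intro c
    induction c with
    | zero => intro _; exact ReflTransGen.refl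
    | succ c ih => intro hc; exact (ih (by omega)).tail (lk c hc)
  have h := click_all (C := m) (M := 1) (col := fun _ _ => 2) (ℓ := fun _ _ => 1) (x := (0, 0))
    (a := 2) ⟨by show 0 < m; omega, by show 0 < 1; omega, by show 0 < 1; omega⟩ rfl
    (Or.inr ⟨_, lk 0 (by omega)⟩) (by
      rintro ⟨c, i⟩ hy -
      have h1 : i = 0 := by have : i < 1 := hy.2.1; omega
      subst h1
      exact conn c hy.1)
  have e : elimC 2 (boardF m 1 (fun _ _ => 2) fun _ _ => 1) = [] := by
    rw [elimC_boardF, List.filter_eq_nil_iff]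
    intro C hC
    unfold boardF at hC
    rw [List.mem_map] at hC
    obtain ⟨c, -, rfl⟩ := hC
    simp [colF]
  rw [e] at h
  exact h

/-- **The forward direction.** -/
theorem forward (hW : W % 2 = 1) (hD : ∀ j ∈ D, j < n) {d : ℕ} (hd : d < n) (hdD : d ∉ D)
    (hcov : ∀ c < W, c % 2 = 1 → ∃ j ∈ D, cov (c / 2 / R) j = true) :
    Clicks (D.card + 4) (board0 n R W cov) [] := by
  have hWpos : 0 < W := by omega
  have hX := unif_XD (n := n) hWpos hD
  have h0 := clicks_XD (R := R) (cov := cov) hW D hD
  have h1 := clicks_succ h0 (click_main hW hX fun c hc ho => by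
    obtain ⟨j, hj, h⟩ := hcov c hc ho
    exact ⟨j, hD j hj, h, hWpos, j, hj, rfl⟩)
  rw [elim_three hX] at h1
  have h2 := clicks_succ h1 (click_sep (by omega) hW hX
    (fun i hi _ => odd_notMem_XD hi) (by rintro ⟨h, -⟩; simp only at h; omega))
  rw [elim_one hW hX] at h2
  have h3 := clicks_succ h2 (click_layers hW hd (by
    rintro c - ⟨-, j, hj, h⟩
    have : d = j := by simp only at h; omega
    exact hdD (this ▸ hj)))
  obtain ⟨m, hm, e⟩ := elim_zero (n := n) (R := R) (cov := cov) (X := XD W D) hW
  rw [e] at h3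
  exact clicks_succ h3 (click_last hm)

end

end Pool.Agent.L0h82.CE
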