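import Pool.Agent.Q206.CK.Bwd

/-!
# Lower bounds for the number of clicks that empty a board
-/

namespace Pool.Agent.L0h82.CE

open Relation Pool.Agent.Q206.CK

theorem Same.symm' {B : Board} {p q : ℕ × ℕ} (h : Same B p q) : Same B q p := by
  obtain ⟨h1, c, h2, h3⟩ := h
  refine ⟨?_, c, h3, h2⟩
  rcases h1 with ⟨h4, h5⟩ | ⟨h4, h5⟩
  · exact Or.inl ⟨h4.symm, h5.symm⟩
  · exact Or.inr ⟨h4.symm, h5.symm⟩

/-- A tile without neighbours of its colour is in no group that can be clicked. -/
theorem notMem_group {B : Board} {p q z : ℕ × ℕ} (h : Same B p q) (hz : ∀ y, ¬ Same B z y) :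
    z ∉ group B p := by
  intro hg
  have hg' : ReflTransGen (Same B) p z := hg
  rcases ReflTransGen.cases_tail hg' with h1 | ⟨y, -, h2⟩
  · subst h1
    exact hz q h
  · exact hz y (Same.symm' h2)

/-- The tiles of a group have the same colour. -/
theorem group_colour {B : Board} {p q z : ℕ × ℕ} (h : Same B p q) (hz : z ∈ group B p) :
    tile B z = tile B p ∧ ∃ c, tile B p = some c := by
  obtain ⟨-, c, h2, -⟩ := h
  refine ⟨?_, c, h2⟩
  have hz' : ReflTransGen (Same B) p z := hz
  induction hz' with
  | refl => rfl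
  | @tail y z hy hyz ih =>
    obtain ⟨-, c', h3, h4⟩ := hyz
    rw [h4, ← ih hy, h3]

/-- The column `i` after the removal of `G`. -/
noncomputable def rem (G : Set (ℕ × ℕ)) (i : ℕ) (C : List ℕ) : List ℕ := by
  classical
  exact (C.zipIdx.filter fun x => decide ((i, x.2) ∉ G)).map Prod.fst

theorem remove_def (B : Board) (G : Set (ℕ × ℕ)) :
    remove B G = (B.mapIdx (rem G)).filter fun C => decide (C ≠ []) := rfl

theorem rem_sublist (G : Set (ℕ × ℕ)) (i : ℕ) (C : List ℕ) : (rem G i C).Sublist C := by
  classical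
  unfold rem
  have h := (List.filter_sublist (p := fun x : ℕ × ℕ => decide ((i, x.2) ∉ G))
    (l := C.zipIdx)).map Prod.fst
  rwa [List.zipIdx_map_fst] at h

theorem mem_rem {G : Set (ℕ × ℕ)} {i j : ℕ} {C : List ℕ} {a : ℕ} (h : C[j]? = some a)
    (hG : (i, j) ∉ G) : a ∈ rem G i C := by
  classical
  unfold rem
  rw [List.mem_map]
  refine ⟨(a, j), ?_, rfl⟩
  rw [List.mem_filter]
  refine ⟨?_, by simpa using hG⟩
  rw [List.mem_zipIdx_iff_getElem?]
  exact h

/-- The colours of the tiles of a board. -/
def cols (B : Board) : Set ℕ := {a | ∃ C ∈ B, a ∈ C}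

theorem cols_click {B B' : Board} (h : Click B B') : ∃ c, ∀ a ∈ cols B, a ≠ c → a ∈ cols B' := by
  obtain ⟨p, q, h, rfl⟩ := h
  obtain ⟨c, hc⟩ : ∃ c, tile B p = some c := by
    obtain ⟨-, c, h2, -⟩ := h
    exact ⟨c, h2⟩
  refine ⟨c, ?_⟩
  rintro a ⟨C, hC, haC⟩ hac
  obtain ⟨i, hi⟩ := List.mem_iff_getElem?.1 hC
  obtain ⟨j, hj⟩ := List.mem_iff_getElem?.1 haC
  have ht : tile B (i, j) = some a := by
    unfold tile
    simp only [hi, Option.bind_some, hj]
  have hG : (i, j) ∉ group B p := by
    intro hg
    have h1 := (group_colour h hg).1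
    rw [ht, hc] at h1
    exact hac (Option.some.inj h1)
  have hm := mem_rem hj hG
  refine ⟨rem (group B p) i C, ?_, hm⟩
  rw [remove_def, List.mem_filter]
  refine ⟨?_, ?_⟩
  · rw [List.mem_iff_getElem?]
    refine ⟨i, ?_⟩
    rw [List.getElem?_mapIdx, hi]
    rfl
  · rw [decide_eq_true_eq]
    intro h0
    rw [h0] at hm
    simp at hm

/-- Each click removes the tiles of one colour only. -/
theorem card_le_of_clicks : ∀ (j : ℕ) {B : Board}, Clicks j B [] → ∀ S : Finset ℕ,
    (∀ a ∈ S, a ∈ cols B) → S.card ≤ j := by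
  intro j
  induction j with
  | zero =>
    intro B h S hS
    have h' : B = [] := h
    subst h'
    have : S = ∅ := by
      rw [Finset.eq_empty_iff_forall_notMem]
      intro a ha
      obtain ⟨C, hC, -⟩ := hS a ha
      simp at hC
    rw [this]
    simp
  | succ j ih =>
    intro B h S hS
    obtain ⟨B', h1, h2⟩ := h
    obtain ⟨c, hc⟩ := cols_click h1
    have h3 := ih h2 (S.erase c) fun a ha =>
      hc a (hS a (Finset.mem_of_mem_erase ha)) (Finset.ne_of_mem_erase ha)
    have h4 := Finset.pred_card_le_card_erase (s := S) (a := c)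
    omega

/-! ### alternating columns that get stuck -/

/-- The column has one tile of the colour `a` and no tile of the colour `b`. -/
def Good (a b : ℕ) (C : List ℕ) : Prop := C.count a = 1 ∧ C.count b = 0

/-- The `m` columns starting with column `s` are alternately `Good a b` and `Good b a`. -/
def Pat (a b s m : ℕ) (B : Board) : Prop :=
  ∀ i < m, ∃ C, B[s + i]? = some C ∧ (if i % 2 = 0 then Good a b C else Good b a C)

theorem getElem?_count_unique {C : List ℕ} {a i j : ℕ} (h : C.count a = 1) (hi : C[i]? = some a)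
    (hj : C[j]? = some a) : i = j := by
  by_contra hne
  wlog hlt : i < j generalizing i j
  · exact this hj hi (Ne.symm hne) (by omega)
  have hjl : j < C.length := (List.getElem?_eq_some_iff.1 hj).1
  have h1 : C = C.take (i + 1) ++ C.drop (i + 1) := (List.take_append_drop _ _).symm
  have h2 : a ∈ C.take (i + 1) := by
    rw [List.mem_iff_getElem?]
    exact ⟨i, by rw [List.getElem?_take_of_lt (by omega)]; exact hi⟩
  have h3 : a ∈ C.drop (i + 1) := by
    rw [List.mem_iff_getElem?]
    exact ⟨j - (i + 1), by rw [List.getElem?_drop]; rw [show i + 1 + (j - (i + 1)) = j by omega]; exact hj⟩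
  have h4 : C.count a = (C.take (i + 1)).count a + (C.drop (i + 1)).count a := by
    rw [← List.count_append, List.take_append_drop]
  have h5 := List.count_pos_iff.2 h2
  have h6 := List.count_pos_iff.2 h3
  omega

/-- The core: the special tile of an inner column has no neighbour of its colour. -/
theorem isolated {B : Board} {a I t : ℕ} {C : List ℕ} (hC : B[I]? = some C)
    (hg : C.count a = 1) (ht : C[t]? = some a)
    (hl : ∀ J, J + 1 = I → ∀ D, B[J]? = some D → D.count a = 0)
    (hr : ∀ D, B[I + 1]? = some D → D.count a = 0) : ∀ y, ¬ Same B (I, t) y := by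
  rintro ⟨y1, y2⟩ ⟨h1, c, h2, h3⟩
  have hc : c = a := by
    unfold tile at h2
    simp only [hC, Option.bind_some, ht] at h2
    exact (Option.some.inj h2).symm
  subst hc
  have key : ∀ J, (∀ D, B[J]? = some D → D.count c = 0) → ∀ j, tile B (J, j) ≠ some c := by
    intro J hJ j h
    unfold tile at h
    simp only at h
    cases hD : B[J]? with
    | none => rw [hD] at h; simp at h
    | some D =>
      rw [hD] at h
      simp only [Option.bind_some] at h
      have := List.count_eq_zero.1 (hJ D hD)
      exact this (List.mem_iff_getElem?.2 ⟨j, h⟩)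
  rcases h1 with ⟨h4, h5⟩ | ⟨h4, h5⟩
  · simp only at h4 h5
    subst h4
    unfold tile at h3
    simp only [hC, Option.bind_some] at h3
    have := getElem?_count_unique hg ht h3
    omega
  · simp only at h4 h5
    rcases h5 with h5 | h5
    · subst h5
      exact key _ hr _ h3
    · exact key y1 (fun D hD => hl y1 h5 D hD) _ h3

theorem count_rem_le (G : Set (ℕ × ℕ)) (i : ℕ) (C : List ℕ) (a : ℕ) :
    (rem G i C).count a ≤ C.count a := (rem_sublist G i C).count_le a

theorem filter_getElem? {α : Type} (p : α → Bool) (L : List α) (s m : ℕ)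
    (h : ∀ i < m, ∃ x, L[s + i]? = some x ∧ p x = true) :
    ∀ i < m, (L.filter p)[((L.take s).filter p).length + i]? = L[s + i]? := by
  intro i hi
  have h1 : L = L.take s ++ L.drop s := (List.take_append_drop _ _).symm
  have h2 : L.filter p = (L.take s).filter p ++ (L.drop s).filter p := by
    rw [← List.filter_append, List.take_append_drop]
  have h3 : ((L.drop s).take m).filter p = (L.drop s).take m := by
    rw [List.filter_eq_self]
    intro x hx
    obtain ⟨j, hj⟩ := List.mem_iff_getElem?.1 hx
    rw [List.getElem?_take] at hj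
    split_ifs at hj with hjm
    rw [List.getElem?_drop] at hj
    obtain ⟨y, hy, hy2⟩ := h j hjm
    rw [hy] at hj
    rw [← Option.some.inj hj]
    exact hy2
  have h4 : (L.drop s).filter p = (L.drop s).take m ++ ((L.drop s).drop m).filter p := by
    conv_lhs => rw [← List.take_append_drop m (L.drop s), List.filter_append, h3]
  rw [h2, List.getElem?_append_right (by omega), Nat.add_sub_cancel_left, h4]
  obtain ⟨x, hx, -⟩ := h i hi
  have h5 : i < ((L.drop s).take m).length := by
    have : s + i < L.length := (List.getElem?_eq_some_iff.1 hx).1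
    obtain ⟨y, hy, -⟩ := h (m - 1) (by omega)
    have h6 : s + (m - 1) < L.length := (List.getElem?_eq_some_iff.1 hy).1
    rw [List.length_take, List.length_drop]
    omega
  rw [List.getElem?_append_left h5, List.getElem?_take_of_lt hi, List.getElem?_drop]

theorem Good.rem {a b i : ℕ} {C : List ℕ} (G : Set (ℕ × ℕ)) (h : Good a b C)
    (hG : ∀ t, C[t]? = some a → (i, t) ∉ G) : Good a b (rem G i C) := by
  obtain ⟨h1, h2⟩ := h
  have h3 := count_rem_le G i C a
  have h4 := count_rem_le G i C b
  have h5 : a ∈ C := List.count_pos_iff.1 (by omega)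
  obtain ⟨t, ht⟩ := List.mem_iff_getElem?.1 h5
  have h6 := List.count_pos_iff.2 (mem_rem ht (hG t ht))
  exact ⟨by omega, by omega⟩

theorem Good.ne_nil {a b : ℕ} {C : List ℕ} (h : Good a b C) : C ≠ [] := by
  rintro rfl
  simp [Good] at h

/-- One click shortens the pattern by at most one column at each end. -/
theorem pat_click {a b s m : ℕ} {B B' : Board} (h : Click B B') (hP : Pat a b s (m + 2) B) :
    ∃ s', Pat b a s' m B' := by
  obtain ⟨p, q, h, rfl⟩ := h
  have hall : ∀ i < m, ∃ C, B[s + 1 + i]? = some C ∧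
      (if i % 2 = 0 then Good b a (rem (group B p) (s + 1 + i) C) else
        Good a b (rem (group B p) (s + 1 + i) C)) := by
    intro i hi
    obtain ⟨C, hC, hCg⟩ := hP (i + 1) (by omega)
    obtain ⟨Cl, hCl, hClg⟩ := hP i (by omega)
    obtain ⟨Cr, hCr, hCrg⟩ := hP (i + 2) (by omega)
    refine ⟨C, by rw [← hC]; congr 1; omega, ?_⟩
    have iso : ∀ c, C.count c = 1 → Cl.count c = 0 → Cr.count c = 0 →
        ∀ t, C[t]? = some c → (s + 1 + i, t) ∉ group B p := by
      intro c h1 h2 h3 t ht
      refine notMem_group h (isolated (by rw [← hC]; congr 1; omega) h1 ht ?_ ?_)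
      · intro J hJ D hD
        have : J = s + i := by omega
        subst this
        rw [hCl] at hD
        rw [← Option.some.inj hD]; exact h2
      · intro D hD
        rw [show s + 1 + i + 1 = s + (i + 2) by omega, hCr] at hD
        rw [← Option.some.inj hD]; exact h3
    rcases Nat.mod_two_eq_zero_or_one i with hi2 | hi2
    · rw [if_pos hi2]
      rw [if_neg (by omega)] at hCg
      rw [if_pos hi2] at hClg
      rw [if_pos (by omega)] at hCrg
      exact hCg.rem _ (iso b hCg.1 hClg.2 hCrg.2)
    · rw [if_neg (by omega)]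
      rw [if_pos (by omega)] at hCg
      rw [if_neg (by omega)] at hClg
      rw [if_neg (by omega)] at hCrg
      exact hCg.rem _ (iso a hCg.1 hClg.2 hCrg.2)
  have hmap : ∀ i < m, ∃ C, (B.mapIdx (rem (group B p)))[s + 1 + i]? = some C ∧
      (if i % 2 = 0 then Good b a C else Good a b C) := by
    intro i hi
    obtain ⟨C, hC, hCg⟩ := hall i hi
    refine ⟨rem (group B p) (s + 1 + i) C, ?_, hCg⟩
    rw [List.getElem?_mapIdx, hC]
    rfl
  have hf := filter_getElem? (fun C : List ℕ => decide (C ≠ [])) (B.mapIdx (rem (group B p)))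
    (s + 1) m (by
      intro i hi
      obtain ⟨C, hC, hCg⟩ := hmap i hi
      refine ⟨C, hC, ?_⟩
      rw [decide_eq_true_eq]
      split_ifs at hCg
      · exact hCg.ne_nil
      · exact hCg.ne_nil)
  refine ⟨(((B.mapIdx (rem (group B p))).take (s + 1)).filter
    fun C : List ℕ => decide (C ≠ [])).length, fun i hi => ?_⟩
  obtain ⟨C, hC, hCg⟩ := hmap i hi
  refine ⟨C, ?_, hCg⟩
  rw [remove_def, hf i hi]
  exact hC

/-- A long pattern cannot be removed with few clicks. -/
theorem not_clicks_of_pat : ∀ (j : ℕ) {a b s m : ℕ} {B : Board}, 2 * j < m → Pat a b s m B →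
    ¬ Clicks j B [] := by
  intro j
  induction j with
  | zero =>
    intro a b s m B hm hP h
    have h' : B = [] := h
    subst h'
    obtain ⟨C, hC, -⟩ := hP 0 (by omega)
    simp at hC
  | succ j ih =>
    intro a b s m B hm hP h
    obtain ⟨B', h1, h2⟩ := h
    obtain ⟨m', rfl⟩ : ∃ m', m = m' + 2 := ⟨m - 2, by omega⟩
    obtain ⟨s', hP'⟩ := pat_click h1 hP
    exact ih (by omega) hP' h2

end Pool.Agent.L0h82.CE
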