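import Pool.Agent.L0h82.CE.Gen

/-!
# The board of the elimination variant, and the touching pieces in it
-/

namespace Pool.Agent.L0h82.CE

open Relation Pool.Agent.Q206.CK

/-- The colours of the pieces. -/
def ec (n W c i : ℕ) : ℕ :=
  if i < 2 * n then i % 2 else
  if i = 2 * n then (if c = W + 1 then 1 else 3) else
  if i = 2 * n + 1 then (if c % 2 = 1 then 0 else 2) else 3

/-- The lengths of the pieces. -/
def el (n R W : ℕ) (cov : ℕ → ℕ → Bool) (c i : ℕ) : ℕ :=
  if c < W then
    (if i < 2 * n then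
      (n + 1) + (if i % 2 = 0 ∧ c % 2 = 1 ∧ cov (c / 2 / R) (i / 2) = true then 1 else 0) else
    if i = 2 * n then (if c % 2 = 1 then (n + 1) - deg n cov (c / 2 / R) else n + 2) else
    if i = 2 * n + 1 then 1 else (if c % 2 = 1 then 1 else 0)) else
  (if i = 2 * n then 2 * n * (n + 2) + 1 else if i = 2 * n + 1 ∧ c = W + 1 then 1 else 0)

section
variable {n R W : ℕ} {cov : ℕ → ℕ → Bool} {X : Set (ℕ × ℕ)}

/-- The state of the board before the bars are removed. -/
structure Unif (n W : ℕ) (X : Set (ℕ × ℕ)) : Prop where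
  main : ∀ c ≤ W, (c, 2 * n) ∉ X
  top : ∀ c i, 2 * n + 1 ≤ i → (c, i) ∉ X
  unif : ∀ c < W, ∀ i < 2 * n, ((c, i) ∈ X ↔ (0, i) ∈ X)

/-- The length in the state `X`. -/
noncomputable abbrev L (n R W : ℕ) (cov : ℕ → ℕ → Bool) (X : Set (ℕ × ℕ)) : ℕ → ℕ → ℕ :=
  cut (el n R W cov) X

/-- The links in the state `X`. -/
abbrev Lk (n R W : ℕ) (cov : ℕ → ℕ → Bool) (X : Set (ℕ × ℕ)) (x y : ℕ × ℕ) : Prop :=
  Link (W + 2) (2 * n + 3) (ec n W) (L n R W cov X) x y

/-- The present pieces in the state `X`. -/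
abbrev Pr (n R W : ℕ) (cov : ℕ → ℕ → Bool) (X : Set (ℕ × ℕ)) (x : ℕ × ℕ) : Prop :=
  Pres (W + 2) (2 * n + 3) (L n R W cov X) x

theorem el_layer {c i : ℕ} (hc : c < W) (h2 : i < 2 * n) : el n R W cov c i =
    (n + 1) + (if i % 2 = 0 ∧ c % 2 = 1 ∧ cov (c / 2 / R) (i / 2) = true then 1 else 0) := by
  unfold el
  rw [if_pos hc, if_pos h2]

theorem el_ref {c i : ℕ} (hc : c < W) (h : c % 2 = 0) (h2 : i < 2 * n) :
    el n R W cov c i = n + 1 := by
  rw [el_layer hc h2, if_neg (by omega)]

theorem el_bar {c : ℕ} (hc : c < W) (h : c % 2 = 0) : el n R W cov c (2 * n) = n + 2 := by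
  unfold el
  rw [if_pos hc, if_neg (by omega), if_pos rfl, if_neg (by omega)]

theorem el_con {c : ℕ} (hc : c < W) (h : c % 2 = 1) :
    el n R W cov c (2 * n) = (n + 1) - deg n cov (c / 2 / R) := by
  unfold el
  rw [if_pos hc, if_neg (by omega), if_pos rfl, if_pos h]

theorem el_top {c : ℕ} (hc : c < W) : el n R W cov c (2 * n + 1) = 1 := by
  unfold el
  rw [if_pos hc, if_neg (by omega), if_neg (by omega), if_pos rfl]

theorem el_odd {c : ℕ} (hc : c < W) (h : c % 2 = 1) : el n R W cov c (2 * n + 2) = 1 := by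
  unfold el
  rw [if_pos hc, if_neg (by omega), if_neg (by omega), if_neg (by omega), if_pos h]

theorem el_even {c : ℕ} (hc : c < W) (h : c % 2 = 0) : el n R W cov c (2 * n + 2) = 0 := by
  unfold el
  rw [if_pos hc, if_neg (by omega), if_neg (by omega), if_neg (by omega), if_neg (by omega)]

theorem el_high {c : ℕ} (hc : W ≤ c) : el n R W cov c (2 * n) = 2 * n * (n + 2) + 1 := by
  unfold el
  rw [if_neg (by omega), if_pos rfl]

theorem el_high_of_ne {c i : ℕ} (hc : W ≤ c) (h : i ≠ 2 * n) (h' : i ≠ 2 * n + 1 ∨ c ≠ W + 1) :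
    el n R W cov c i = 0 := by
  unfold el
  rw [if_neg (by omega), if_neg h, if_neg]
  rintro ⟨h1, h2⟩
  rcases h' with h' | h'
  · exact h' h1
  · exact h' h2

theorem el_strip_cap : el n R W cov (W + 1) (2 * n + 1) = 1 := by
  unfold el
  rw [if_neg (by omega), if_neg (by omega), if_pos ⟨rfl, rfl⟩]

theorem sum_even (g : ℕ → ℕ) (n : ℕ) (h0 : ∀ j < n, g (2 * j + 1) = 0) :
    ∑ i ∈ Finset.range (2 * n), g i = ∑ j ∈ Finset.range n, g (2 * j) := by
  induction n with
  | zero => rfl
  | succ n ih =>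
    rw [show 2 * (n + 1) = 2 * n + 1 + 1 from by ring, Finset.sum_range_succ,
      Finset.sum_range_succ, ih fun j hj => h0 j (by omega), Finset.sum_range_succ]
    rw [h0 n (by omega), add_zero]

theorem off_le (hX : Unif n W X) {c c' : ℕ} (hc : c < W) (hc' : c' < W) {i : ℕ}
    (hi : i ≤ 2 * n) : off (L n R W cov X c) i ≤ off (L n R W cov X c') i + n := by
  have h1 : off (L n R W cov X c) i ≤ off (L n R W cov X c') i +
      ∑ j ∈ Finset.range i, (if j % 2 = 0 then 1 else 0) := by
    unfold off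
    rw [← Finset.sum_add_distrib]
    refine Finset.sum_le_sum fun j hj => ?_
    rw [Finset.mem_range] at hj
    have h2 : j < 2 * n := by omega
    by_cases h3 : (c, j) ∈ X
    · rw [show L n R W cov X c j = 0 from cut_of_mem h3]; exact Nat.zero_le _
    · have h4 : (c', j) ∉ X := fun h => h3 ((hX.unif c hc j h2).2 ((hX.unif c' hc' j h2).1 h))
      rw [show L n R W cov X c j = _ from cut_of_notMem h3,
        show L n R W cov X c' j = _ from cut_of_notMem h4, el_layer hc h2, el_layer hc' h2]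
      split_ifs <;> omega
  have h2 : ∑ j ∈ Finset.range i, (if j % 2 = 0 then 1 else 0) ≤ n := by
    calc ∑ j ∈ Finset.range i, (if j % 2 = 0 then 1 else 0)
        ≤ ∑ j ∈ Finset.range (2 * n), (if j % 2 = 0 then 1 else 0) :=
          Finset.sum_le_sum_of_subset (Finset.range_mono hi)
      _ = ∑ j ∈ Finset.range n, (if (2 * j) % 2 = 0 then 1 else 0) :=
          sum_even (fun j => if j % 2 = 0 then 1 else 0) n fun j _ => by
            show (if (2 * j + 1) % 2 = 0 then 1 else 0) = 0
            rw [if_neg (by omega)]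
      _ ≤ n := by
          refine (Finset.sum_le_card_nsmul _ _ 1 fun j _ => ?_).trans (by simp)
          split_ifs <;> omega
  omega

open Classical in
/-- The number of present layers of the sets containing `u`. -/
noncomputable def cnt (n : ℕ) (cov : ℕ → ℕ → Bool) (X : Set (ℕ × ℕ)) (u : ℕ) : ℕ :=
  ∑ j ∈ Finset.range n, (if (0, 2 * j) ∉ X ∧ cov u j = true then 1 else 0)

theorem cnt_le (u : ℕ) : cnt n cov X u ≤ deg n cov u := by
  classical
  unfold cnt deg
  refine Finset.sum_le_sum fun j _ => ?_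
  by_cases h : cov u j = true
  · rw [if_pos h]; split_ifs <;> omega
  · rw [if_neg h, if_neg fun h' => h h'.2]

theorem cnt_lt {u j : ℕ} (hj : j < n) (h1 : cov u j = true) (h2 : (0, 2 * j) ∈ X) :
    cnt n cov X u < deg n cov u := by
  classical
  unfold cnt deg
  refine Finset.sum_lt_sum (fun j _ => ?_) ⟨j, Finset.mem_range.2 hj, ?_⟩
  · by_cases h : cov u j = true
    · rw [if_pos h]; split_ifs <;> omega
    · rw [if_neg h, if_neg fun h' => h h'.2]
  · rw [if_pos h1, if_neg fun h => h.1 h2]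
    omega

theorem cnt_eq {u : ℕ} (h : ∀ j < n, cov u j = true → (0, 2 * j) ∉ X) :
    cnt n cov X u = deg n cov u := by
  classical
  unfold cnt deg
  refine Finset.sum_congr rfl fun j hj => ?_
  rw [Finset.mem_range] at hj
  by_cases h1 : cov u j = true
  · rw [if_pos h1, if_pos ⟨h j hj h1, h1⟩]
  · rw [if_neg h1, if_neg fun h' => h1 h'.2]

theorem off_eq (hX : Unif n W X) {c c' : ℕ} (hc : c < W) (hc' : c' < W) (ho : c % 2 = 1)
    (he : c' % 2 = 0) :
    off (L n R W cov X c) (2 * n) = off (L n R W cov X c') (2 * n) +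
      cnt n cov X (c / 2 / R) := by
  classical
  have e := sum_even (fun i => if i % 2 = 0 ∧ (0, i) ∉ X ∧ cov (c / 2 / R) (i / 2) = true then 1
    else 0) n fun j _ => if_neg (by omega)
  have e2 : cnt n cov X (c / 2 / R) =
      ∑ j ∈ Finset.range n, (fun i => if i % 2 = 0 ∧ (0, i) ∉ X ∧ cov (c / 2 / R) (i / 2) = true
        then 1 else 0) (2 * j) := by
    unfold cnt
    refine Finset.sum_congr rfl fun j _ => ?_
    have e3 : (2 * j) % 2 = 0 := by omega
    have e4 : (2 * j) / 2 = j := by omega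
    simp only [e3, e4, true_and]
  rw [e2, ← e]
  unfold off
  rw [← Finset.sum_add_distrib]
  refine Finset.sum_congr rfl fun j hj => ?_
  rw [Finset.mem_range] at hj
  have h5 := hX.unif c hc j hj
  by_cases h3 : (c, j) ∈ X
  · have h4 : (c', j) ∈ X := (hX.unif c' hc' j hj).2 (h5.1 h3)
    rw [show L n R W cov X c j = 0 from cut_of_mem h3, show L n R W cov X c' j = 0 from cut_of_mem h4,
      if_neg fun h => h.2.1 (h5.1 h3)]
  · have h4 : (c', j) ∉ X := fun h => h3 (h5.2 ((hX.unif c' hc' j hj).1 h))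
    have h6 : (0, j) ∉ X := fun h => h3 (h5.2 h)
    rw [show L n R W cov X c j = _ from cut_of_notMem h3,
      show L n R W cov X c' j = _ from cut_of_notMem h4, el_layer hc hj, el_ref hc' he hj]
    by_cases h7 : j % 2 = 0 ∧ cov (c / 2 / R) (j / 2) = true
    · rw [if_pos ⟨h7.1, ho, h7.2⟩, if_pos ⟨h7.1, h6, h7.2⟩]
    · rw [if_neg fun h => h7 ⟨h.1, h.2.2⟩, if_neg fun h => h7 ⟨h.1, h.2.2⟩]

theorem off_small {c i : ℕ} (hi : i ≤ 2 * n) (hc : c < W) :
    off (L n R W cov X c) i ≤ 2 * n * (n + 2) := by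
  unfold off
  have h1 : ∑ j ∈ Finset.range i, L n R W cov X c j ≤ ∑ j ∈ Finset.range (2 * n), (n + 2) := by
    refine (Finset.sum_le_sum fun j hj => ?_).trans
      (Finset.sum_le_sum_of_subset (Finset.range_mono hi))
    rw [Finset.mem_range] at hj
    by_cases h3 : (c, j) ∈ X
    · rw [show L n R W cov X c j = 0 from cut_of_mem h3]; exact Nat.zero_le _
    · rw [show L n R W cov X c j = _ from cut_of_notMem h3, el_layer hc (by omega)]
      split_ifs <;> omega
  simpa using h1

/-- A present layer. -/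
theorem pres_layer {c i : ℕ} (hc : c < W) (h2 : i < 2 * n) (h3 : (c, i) ∉ X) :
    Pr n R W cov X (c, i) := by
  refine ⟨by show c < _; omega, by show i < _; omega, ?_⟩
  show 0 < L n R W cov X c i
  rw [show L n R W cov X c i = _ from cut_of_notMem h3, el_layer hc h2]
  omega

theorem Pr.notMem {x : ℕ × ℕ} (h : Pr n R W cov X x) : x ∉ X := Pres.notMem h

theorem Pr.pos {x : ℕ × ℕ} (h : Pr n R W cov X x) : 0 < el n R W cov x.1 x.2 := by
  have h1 := h.2.2
  rw [show L n R W cov X x.1 x.2 = _ from cut_of_notMem h.notMem] at h1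
  exact h1

/-- The pieces of a layer in adjacent columns touch. -/
theorem link_layer (hX : Unif n W X) {c c' i : ℕ} (hc : c < W) (hc' : c' < W)
    (hcc : c + 1 = c' ∨ c' + 1 = c) (h2 : i < 2 * n) (h3 : (c, i) ∉ X) :
    Lk n R W cov X (c, i) (c', i) := by
  have h4 : (c', i) ∉ X := fun h => h3 ((hX.unif c hc i h2).2 ((hX.unif c' hc' i h2).1 h))
  refine ⟨pres_layer hc h2 h3, pres_layer hc' h2 h4, ?_, Or.inr ⟨hcc, ?_, ?_⟩⟩
  · show ec n W c i = ec n W c' i
    unfold ec
    rw [if_pos h2, if_pos h2]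
  · show off (L n R W cov X c) i < off (L n R W cov X c') (i + 1)
    have h5 := off_le (R := R) (cov := cov) hX hc hc' (i := i) (by omega)
    rw [off_succ, show L n R W cov X c' i = _ from cut_of_notMem h4, el_layer hc' h2]
    omega
  · show off (L n R W cov X c') i < off (L n R W cov X c) (i + 1)
    have h5 := off_le (R := R) (cov := cov) hX hc' hc (i := i) (by omega)
    rw [off_succ, show L n R W cov X c i = _ from cut_of_notMem h3, el_layer hc h2]
    omega

/-- Linked layers are not separated by a layer of the other colour. -/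
theorem link_between (hX : Unif n W X) {x y : ℕ × ℕ} {l : ℕ} (hx1 : x.1 < W) (hy1 : y.1 < W)
    (h : Lk n R W cov X x y) (h1 : x.2 < l) (h2 : l < y.2) (hl2 : l < 2 * n) : (0, l) ∈ X := by
  by_contra hl
  obtain ⟨⟨-, hx2, hx3⟩, ⟨-, hy2, hy3⟩, hc, ht⟩ := h
  have hlx : (x.1, l) ∉ X := fun h => hl ((hX.unif x.1 hx1 l hl2).1 h)
  have hly : (y.1, l) ∉ X := fun h => hl ((hX.unif y.1 hy1 l hl2).1 h)
  have ex : off (L n R W cov X x.1) (l + 1) ≥ off (L n R W cov X x.1) l + (n + 1) := by
    rw [off_succ, show L n R W cov X x.1 l = _ from cut_of_notMem hlx, el_layer hx1 hl2]; omega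
  have ey : off (L n R W cov X y.1) (l + 1) ≥ off (L n R W cov X y.1) l + (n + 1) := by
    rw [off_succ, show L n R W cov X y.1 l = _ from cut_of_notMem hly, el_layer hy1 hl2]; omega
  have m1 := off_mono (L n R W cov X x.1) (show x.2 + 1 ≤ l from h1)
  have m2 := off_mono (L n R W cov X y.1) (show l + 1 ≤ y.2 from h2)
  have m3 := off_mono (L n R W cov X x.1) (show x.2 ≤ x.2 + 1 by omega)
  have m4 := off_mono (L n R W cov X y.1) (show y.2 ≤ y.2 + 1 by omega)
  rcases ht with ⟨h5, h6⟩ | ⟨h5, h6, h7⟩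
  · rw [← h5] at m2 m4 ey
    rcases h6 with h6 | h6 <;> omega
  · have h8 := off_le (R := R) (cov := cov) hX hx1 hy1 (i := l) (by omega)
    omega

/-- The present pieces of the colours `0` and `1`. -/
theorem ec_lt_two (hW : W % 2 = 1) {y : ℕ × ℕ} (h : Pr n R W cov X y) (hc : ec n W y.1 y.2 < 2) :
    (y.2 < 2 * n ∧ y.1 < W ∧ ec n W y.1 y.2 = y.2 % 2) ∨
    (y.2 = 2 * n ∧ y.1 = W + 1 ∧ ec n W y.1 y.2 = 1) ∨
    (y.2 = 2 * n + 1 ∧ y.1 < W ∧ y.1 % 2 = 1 ∧ ec n W y.1 y.2 = 0) := by
  obtain ⟨c, i⟩ := y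
  have hpos : 0 < el n R W cov c i := h.pos
  have hi : i < 2 * n + 3 := h.2.1
  have hc2 : c < W + 2 := h.1
  unfold ec at hc ⊢
  simp only at hc ⊢
  by_cases h1 : i < 2 * n
  · left
    refine ⟨h1, ?_, if_pos h1⟩
    by_contra h2
    rw [el_high_of_ne (by omega) (by omega) (Or.inl (by omega))] at hpos
    omega
  · rw [if_neg h1] at hc ⊢
    right
    by_cases h2 : i = 2 * n
    · rw [if_pos h2] at hc ⊢
      left
      by_cases h3 : c = W + 1
      · rw [if_pos h3]; exact ⟨h2, h3, rfl⟩
      · rw [if_neg h3] at hc; omega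
    · rw [if_neg h2] at hc ⊢
      right
      by_cases h3 : i = 2 * n + 1
      · rw [if_pos h3] at hc ⊢
        by_cases h4 : c % 2 = 1
        · rw [if_pos h4]
          refine ⟨h3, ?_, h4, rfl⟩
          by_contra h5
          rw [el_high_of_ne (by omega) h2 (Or.inr (by omega))] at hpos
          omega
        · rw [if_neg h4] at hc; omega
      · rw [if_neg h3] at hc; omega

/-- A piece does not touch itself. -/
theorem not_link_self {x y : ℕ × ℕ} (h : Lk n R W cov X x y) (h1 : x.1 = y.1) : x.2 ≠ y.2 := by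
  intro h2
  obtain ⟨⟨hx1, hx2, hx3⟩, hy, hc, ht⟩ := h
  rcases ht with ⟨h5, h6⟩ | ⟨h5, h6, h7⟩
  · rw [← h2] at h6
    have h6' : off (L n R W cov X x.1) (x.2 + 1) = off (L n R W cov X x.1) x.2 := by
      rcases h6 with h6 | h6 <;> exact h6
    rw [off_succ] at h6'
    omega
  · omega

/-- Pieces of a column separated by a present piece do not touch. -/
theorem not_link_sep {x y : ℕ × ℕ} {m : ℕ} (h : Lk n R W cov X x y) (h1 : x.1 = y.1)
    (h2 : x.2 < m) (h3 : m < y.2) : L n R W cov X x.1 m = 0 := by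
  obtain ⟨⟨hx1, hx2, hx3⟩, ⟨hy1, hy2, hy3⟩, hc, ht⟩ := h
  have m1 := off_mono (L n R W cov X x.1) (show x.2 + 1 ≤ m from h2)
  have m2 := off_mono (L n R W cov X x.1) (show m + 1 ≤ y.2 from h3)
  have m3 := off_succ (L n R W cov X x.1) m
  have m4 := off_succ (L n R W cov X x.1) x.2
  have m5 := off_succ (L n R W cov X x.1) y.2
  rcases ht with ⟨h5, h6⟩ | ⟨h5, h6, h7⟩
  · rcases h6 with h6 | h6 <;> omega
  · omega

/-- The strip is not linked to anything. -/
theorem not_link_strip (hW : W % 2 = 1) {y : ℕ × ℕ} : ¬ Lk n R W cov X (W + 1, 2 * n) y := by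
  intro h
  have hc : ec n W (W + 1) (2 * n) = ec n W y.1 y.2 := h.2.2.1
  have h1 : ec n W (W + 1) (2 * n) = 1 := by unfold ec; rw [if_neg (by omega), if_pos rfl, if_pos rfl]
  rw [h1] at hc
  rcases ec_lt_two hW h.2.1 (by omega) with h2 | h2 | h2
  · rcases h.2.2.2 with ⟨h5, -⟩ | ⟨h5, -⟩
    · have h5' : W + 1 = y.1 := h5; omega
    · have h5' : W + 1 + 1 = y.1 ∨ y.1 + 1 = W + 1 := h5; omega
  · exact not_link_self h h2.2.1.symm h2.1.symm
  · omega

/-- Fillers are not linked to anything. -/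
theorem not_link_filler (hW : W % 2 = 1) (hX : Unif n W X) {c : ℕ} (hc : c < W) (ho : c % 2 = 1)
    {y : ℕ × ℕ} : ¬ Lk n R W cov X (c, 2 * n + 1) y := by
  intro h
  have hcol : ec n W c (2 * n + 1) = ec n W y.1 y.2 := h.2.2.1
  have h1 : ec n W c (2 * n + 1) = 0 := by
    unfold ec; rw [if_neg (by omega), if_neg (by omega), if_pos rfl, if_pos ho]
  rw [h1] at hcol
  have hd := deg_le n cov (c / 2 / R)
  have hpc : 0 < L n R W cov X c (2 * n) := by
    rw [show L n R W cov X c (2 * n) = _ from cut_of_notMem (hX.main c (by omega)), el_con hc ho]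
    omega
  rcases ec_lt_two hW h.2.1 (by omega) with h2 | h2 | h2
  · rcases h.2.2.2 with ⟨h5, -⟩ | ⟨h5, h6, h7⟩
    · have h5' : y.1 = c := Eq.symm h5
      have := not_link_sep h.symm h5' (m := 2 * n) h2.1 (by show 2 * n < 2 * n + 1; omega)
      rw [h5'] at this
      omega
    · have h5' : c + 1 = y.1 ∨ y.1 + 1 = c := h5
      have h6' : off (L n R W cov X c) (2 * n + 1) < off (L n R W cov X y.1) (y.2 + 1) := h6
      have h8 := off_mono (L n R W cov X y.1) (show y.2 + 1 ≤ 2 * n by omega)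
      have h9 := off_eq (R := R) (cov := cov) hX hc h2.2.1 ho (by omega)
      rw [off_succ] at h6'
      omega
  · omega
  · rcases h.2.2.2 with ⟨h5, -⟩ | ⟨h5, h6, h7⟩
    · exact not_link_self h h5 h2.1.symm
    · have h5' : c + 1 = y.1 ∨ y.1 + 1 = c := h5
      omega

/-- The present pieces of the colour `2`. -/
theorem ec_eq_two {y : ℕ × ℕ} (hc : ec n W y.1 y.2 = 2) : y.2 = 2 * n + 1 ∧ y.1 % 2 = 0 := by
  unfold ec at hc
  split_ifs at hc <;> omega

/-- Caps are not linked to anything. -/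
theorem not_link_cap {c : ℕ} (he : c % 2 = 0)
    {y : ℕ × ℕ} : ¬ Lk n R W cov X (c, 2 * n + 1) y := by
  intro h
  have hcol : ec n W c (2 * n + 1) = ec n W y.1 y.2 := h.2.2.1
  have h1 : ec n W c (2 * n + 1) = 2 := by
    unfold ec; rw [if_neg (by omega), if_neg (by omega), if_pos rfl, if_neg (by omega)]
  rw [h1] at hcol
  obtain ⟨h2, h3⟩ := ec_eq_two hcol.symm
  rcases h.2.2.2 with ⟨h5, -⟩ | ⟨h5, h6, h7⟩
  · exact not_link_self h h5 h2.symm
  · have h5' : c + 1 = y.1 ∨ y.1 + 1 = c := h5
    omega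

/-- The present pieces of the colour `3`. -/
theorem ec_eq_three {y : ℕ × ℕ} (h : Pr n R W cov X y) (hc : ec n W y.1 y.2 = 3) :
    (y.2 = 2 * n ∧ y.1 ≤ W) ∨ (y.2 = 2 * n + 2 ∧ y.1 < W ∧ y.1 % 2 = 1) := by
  obtain ⟨c, i⟩ := y
  have hpos : 0 < el n R W cov c i := h.pos
  have hi : i < 2 * n + 3 := h.2.1
  have hc2 : c < W + 2 := h.1
  unfold ec at hc
  simp only at hc ⊢
  by_cases h1 : i < 2 * n
  · rw [if_pos h1] at hc; omega
  rw [if_neg h1] at hc
  by_cases h2 : i = 2 * n
  · rw [if_pos h2] at hc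
    left
    by_cases h3 : c = W + 1
    · rw [if_pos h3] at hc; omega
    · exact ⟨h2, by omega⟩
  · rw [if_neg h2] at hc
    by_cases h3 : i = 2 * n + 1
    · rw [if_pos h3] at hc
      split_ifs at hc
      omega
    · right
      have h4 : i = 2 * n + 2 := by omega
      refine ⟨h4, ?_, ?_⟩
      · by_contra h5
        rw [el_high_of_ne (by omega) h2 (Or.inl h3)] at hpos
        omega
      · by_contra h5
        rw [h4] at hpos
        by_cases h6 : c < W
        · rw [el_even h6 (by omega)] at hpos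
          omega
        · rw [el_high_of_ne (by omega) (by omega) (Or.inl (by omega))] at hpos
          omega

theorem L_main_pos (hX : Unif n W X) {c : ℕ} (hc : c ≤ W) : 0 < L n R W cov X c (2 * n) := by
  rw [show L n R W cov X c (2 * n) = _ from cut_of_notMem (hX.main c hc)]
  rcases Nat.lt_or_ge c W with h | h
  · rcases Nat.mod_two_eq_zero_or_one c with h1 | h1
    · rw [el_bar h h1]; omega
    · rw [el_con h h1]
      have := deg_le n cov (c / 2 / R)
      omega
  · rw [el_high h]; omega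

theorem pres_main (hX : Unif n W X) {c : ℕ} (hc : c ≤ W) : Pr n R W cov X (c, 2 * n) :=
  ⟨by show c < _; omega, by show 2 * n < _; omega, L_main_pos hX hc⟩

theorem ec_main {c : ℕ} (hc : c ≤ W) : ec n W c (2 * n) = 3 := by
  unfold ec; rw [if_neg (by omega), if_pos rfl, if_neg (by omega)]

/-- The blocker has no layers. -/
theorem off_block {i : ℕ} (hi : i ≤ 2 * n) : off (L n R W cov X W) i = 0 := by
  unfold off
  refine Finset.sum_eq_zero fun j hj => ?_
  rw [Finset.mem_range] at hj
  by_cases h3 : (W, j) ∈ X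
  · exact cut_of_mem h3
  · rw [show L n R W cov X W j = _ from cut_of_notMem h3]
    exact el_high_of_ne le_rfl (by omega) (Or.inl (by omega))

/-- The bars, the connectors and the blocker are linked. -/
theorem link_main (hX : Unif n W X) (hW : W % 2 = 1) {c : ℕ} (hc : c + 1 ≤ W) :
    Lk n R W cov X (c, 2 * n) (c + 1, 2 * n) := by
  refine ⟨pres_main hX (by omega), pres_main hX hc, ?_, Or.inr ⟨Or.inl rfl, ?_, ?_⟩⟩
  · show ec n W c (2 * n) = ec n W (c + 1) (2 * n)
    rw [ec_main (by omega), ec_main hc]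
  · show off (L n R W cov X c) (2 * n) < off (L n R W cov X (c + 1)) (2 * n + 1)
    rw [off_succ]
    rcases Nat.lt_or_ge (c + 1) W with h | h
    · rcases Nat.mod_two_eq_zero_or_one c with h1 | h1
      · have h2 := off_eq (R := R) (cov := cov) hX (c := c + 1) (c' := c) h (by omega) (by omega) h1
        have h3 := L_main_pos (R := R) (cov := cov) hX (c := c + 1) (by omega)
        omega
      · have h2 := off_eq (R := R) (cov := cov) hX (c := c) (c' := c + 1) (by omega) h h1 (by omega)
        have h3 := cnt_le (n := n) (cov := cov) (X := X) (c / 2 / R)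
        have h4 := deg_le n cov (c / 2 / R)
        rw [show L n R W cov X (c + 1) (2 * n) = _ from cut_of_notMem (hX.main _ hc),
          el_bar h (by omega)]
        omega
    · have h2 : c + 1 = W := by omega
      rw [h2, off_block le_rfl, show L n R W cov X W (2 * n) = _ from cut_of_notMem (hX.main _ le_rfl),
        el_high le_rfl]
      have := off_small (R := R) (cov := cov) (X := X) (n := n) (W := W) (c := c) (i := 2 * n)
        le_rfl (by omega)
      omega
  · show off (L n R W cov X (c + 1)) (2 * n) < off (L n R W cov X c) (2 * n + 1)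
    rw [off_succ]
    have h5 := L_main_pos (R := R) (cov := cov) hX (c := c) (by omega)
    rcases Nat.lt_or_ge (c + 1) W with h | h
    · rcases Nat.mod_two_eq_zero_or_one c with h1 | h1
      · have h2 := off_eq (R := R) (cov := cov) hX (c := c + 1) (c' := c) h (by omega) (by omega) h1
        have h3 := cnt_le (n := n) (cov := cov) (X := X) ((c + 1) / 2 / R)
        have h4 := deg_le n cov ((c + 1) / 2 / R)
        rw [show L n R W cov X c (2 * n) = _ from cut_of_notMem (hX.main _ (by omega)),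
          el_bar (by omega) h1]
        omega
      · have h2 := off_eq (R := R) (cov := cov) hX (c := c) (c' := c + 1) (by omega) h h1 (by omega)
        omega
    · have h2 : c + 1 = W := by omega
      rw [h2, off_block le_rfl]
      omega

/-- The tile on top of an odd column. -/
theorem pres_T (hX : Unif n W X) {c : ℕ} (hc : c < W) (ho : c % 2 = 1) :
    Pr n R W cov X (c, 2 * n + 2) := by
  refine ⟨by show c < _; omega, by show 2 * n + 2 < _; omega, ?_⟩
  show 0 < L n R W cov X c (2 * n + 2)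
  rw [show L n R W cov X c (2 * n + 2) = _ from cut_of_notMem (hX.top c _ (by omega)), el_odd hc ho]
  omega

theorem off_T (hX : Unif n W X) {c c' : ℕ} (hc : c < W) (hc' : c' < W) (ho : c % 2 = 1)
    (he : c' % 2 = 0) : off (L n R W cov X c) (2 * n + 2) + deg n cov (c / 2 / R) =
      off (L n R W cov X c') (2 * n + 1) + cnt n cov X (c / 2 / R) := by
  have h1 := off_eq (R := R) (cov := cov) hX hc hc' ho he
  have h2 := deg_le n cov (c / 2 / R)
  rw [show 2 * n + 2 = 2 * n + 1 + 1 from rfl, off_succ, off_succ, off_succ, h1,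
    show L n R W cov X c (2 * n) = _ from cut_of_notMem (hX.main c (by omega)),
    show L n R W cov X c (2 * n + 1) = _ from cut_of_notMem (hX.top c _ le_rfl),
    show L n R W cov X c' (2 * n) = _ from cut_of_notMem (hX.main c' (by omega)),
    el_con hc ho, el_top hc, el_bar hc' he]
  omega

/-- If a covering set was removed, then the tile touches the bars next to it. -/
theorem link_T (hX : Unif n W X) {c c' : ℕ} (hc : c < W) (hc' : c' < W) (ho : c % 2 = 1)
    (hcc : c + 1 = c' ∨ c' + 1 = c)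
    (hcov : ∃ j < n, cov (c / 2 / R) j = true ∧ (0, 2 * j) ∈ X) :
    Lk n R W cov X (c, 2 * n + 2) (c', 2 * n) := by
  obtain ⟨j, hj, h1, h2⟩ := hcov
  have h3 := cnt_lt hj h1 h2
  have h4 := off_T (R := R) (cov := cov) hX hc hc' ho (by omega)
  have h5 := off_eq (R := R) (cov := cov) hX hc hc' ho (by omega)
  refine ⟨pres_T hX hc ho, pres_main hX (by omega), ?_, Or.inr ⟨hcc, ?_, ?_⟩⟩
  · show ec n W c (2 * n + 2) = ec n W c' (2 * n)
    rw [ec_main (by omega)]
    unfold ec
    rw [if_neg (by omega), if_neg (by omega), if_neg (by omega)]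
  · show off (L n R W cov X c) (2 * n + 2) < off (L n R W cov X c') (2 * n + 1)
    omega
  · show off (L n R W cov X c') (2 * n) < off (L n R W cov X c) (2 * n + 2 + 1)
    have h6 := off_mono (L n R W cov X c) (show 2 * n + 1 ≤ 2 * n + 2 + 1 by omega)
    have h7 := off_succ (L n R W cov X c) (2 * n)
    have h8 := L_main_pos (R := R) (cov := cov) hX (c := c) (by omega)
    omega

/-- If no covering set was removed, then the tile is not linked to anything. -/
theorem not_link_T (hW : W % 2 = 1) (hX : Unif n W X) {c : ℕ} (hc : c < W) (ho : c % 2 = 1)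
    (hcov : ∀ j < n, cov (c / 2 / R) j = true → (0, 2 * j) ∉ X) {y : ℕ × ℕ} :
    ¬ Lk n R W cov X (c, 2 * n + 2) y := by
  intro h
  have hcol : ec n W c (2 * n + 2) = ec n W y.1 y.2 := h.2.2.1
  have h1 : ec n W c (2 * n + 2) = 3 := by
    unfold ec; rw [if_neg (by omega), if_neg (by omega), if_neg (by omega)]
  rw [h1] at hcol
  rcases ec_eq_three h.2.1 hcol.symm with h2 | h2
  · rcases h.2.2.2 with ⟨h5, -⟩ | ⟨h5, h6, h7⟩
    · have h5' : y.1 = c := Eq.symm h5
      have := not_link_sep h.symm h5' (m := 2 * n + 1) (by rw [h2.1]; omega)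
        (by show 2 * n + 1 < 2 * n + 2; omega)
      rw [h5', show L n R W cov X c (2 * n + 1) = _ from cut_of_notMem (hX.top c _ le_rfl),
        el_top hc] at this
      omega
    · have h5' : c + 1 = y.1 ∨ y.1 + 1 = c := h5
      have h8 : y.1 < W ∨ y.1 = W := by omega
      have h6' : off (L n R W cov X c) (2 * n + 2) < off (L n R W cov X y.1) (y.2 + 1) := h6
      rw [h2.1] at h6'
      have hyW : y.1 < W := by
        rcases h8 with h8 | h8
        · exact h8
        · exfalso
          omega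
      have h9 := off_T (R := R) (cov := cov) hX hc hyW ho (by omega)
      rw [cnt_eq hcov] at h9
      omega
  · rcases h.2.2.2 with ⟨h5, -⟩ | ⟨h5, h6, h7⟩
    · exact not_link_self h h5 h2.1.symm
    · have h5' : c + 1 = y.1 ∨ y.1 + 1 = c := h5
      omega

end

end Pool.Agent.L0h82.CE
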