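import Pool.Agent.L0h82.CE.Defs
import Pool.Agent.L0h82.CE.Fwd
import Pool.Agent.Q206.CK.Fin

/-!
# The elimination variant: the reduction
-/

namespace Pool.Agent.L0h82.CE

open Pool.Agent.NPC Pool.Agent.H557R2.Fpt Pool.Agent.H557R2 Pool.Agent.Q206.CK

/-- Closed neighbourhoods, and a further set which is empty. -/
def covD (n : ℕ) (x : List Bool) (u j : ℕ) : Bool := decide (j < n) && covB n x u j

section
variable {α β : Type} [TEnc α] [TEnc β]

theorem poly_covD {n u j : α → ℕ} {x : α → List Bool} (hn : Poly n) (hx : Poly x) (hu : Poly u)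
    (hj : Poly j) : Poly (fun t => covD (n t) (x t) (u t) (j t)) := by
  unfold covD
  have := poly_covB hn hx hu hj
  fun_prop

theorem poly_degD {n u : α → ℕ} {x : α → List Bool} (hn : UPoly n) (hx : Poly x) (hu : Poly u) :
    Poly (fun t => deg (n t + 1) (covD (n t) (x t)) (u t)) := by
  have h1 : Poly (fun t => ((List.range (n t + 1)).map fun j =>
      if covD (n t) (x t) (u t) j = true then 1 else 0).sum) := by
    refine Poly.sum (NPC.Poly.map (hn.add (UPoly.const 1)).range ?_)
    have h2 : Poly (fun p : α × ℕ => covD (n p.1) (x p.1) (u p.1) p.2) :=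
      poly_covD (hn.toPoly.comp (by fun_prop)) (hx.comp (by fun_prop)) (hu.comp (by fun_prop))
        (by fun_prop)
    fun_prop
  exact h1.congr fun t => by unfold deg; rw [sum_range_list]

theorem poly_el {n R W c i : α → ℕ} {x : α → List Bool} (hn : UPoly n) (hR : Poly R) (hW : Poly W)
    (hc : Poly c) (hi : Poly i) (hx : Poly x) :
    Poly (fun t => el (n t + 1) (R t) (W t) (covD (n t) (x t)) (c t) (i t)) := by
  unfold el
  have h0 := hn.toPoly
  have h1 : Poly (fun t => covD (n t) (x t) (c t / 2 / R t) (i t / 2)) :=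
    poly_covD h0 hx (by fun_prop) (by fun_prop)
  have h2 : Poly (fun t => deg (n t + 1) (covD (n t) (x t)) (c t / 2 / R t)) :=
    poly_degD hn hx (by fun_prop)
  fun_prop

theorem el_le (n R W : ℕ) (cov : ℕ → ℕ → Bool) (c i : ℕ) :
    el n R W cov c i ≤ 2 * n * (n + 2) + n + 2 := by
  unfold el
  split_ifs <;> omega

theorem poly_ec {n W c i : α → ℕ} (hn : Poly n) (hW : Poly W) (hc : Poly c) (hi : Poly i) :
    Poly (fun t => ec (n t) (W t) (c t) (i t)) := by
  unfold ec
  fun_prop

end

/-- The number of copies. -/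
def RR (p : Inp) : ℕ := kk p + 4
/-- The number of the column of the blocker. -/
def WW (p : Inp) : ℕ := 2 * (RR p * nn p) + 1

theorem uPoly_RR : UPoly RR := uPoly_kk.add (UPoly.const 4)
theorem uPoly_WW : UPoly WW := ((UPoly.const 2).mul (uPoly_RR.mul uPoly_nn)).add (UPoly.const 1)

/-- The board. -/
def brdE (p : Inp) : Board := (List.range (WW p + 2)).map fun c =>
  (List.range (2 * (nn p + 1) + 3)).flatMap fun i =>
    List.replicate (el (nn p + 1) (RR p) (WW p) (covD (nn p) p.2.1) c i) (ec (nn p + 1) (WW p) c i)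

theorem brdE_eq (p : Inp) :
    brdE p = board0 (nn p + 1) (RR p) (WW p) (covD (nn p) p.2.1) := rfl

theorem poly_brdE : Poly brdE := by
  unfold brdE
  have hC : Poly fun p : Inp => List.range (WW p + 2) := (uPoly_WW.add (UPoly.const 2)).range
  have hM : Poly fun p : Inp => List.range (2 * (nn p + 1) + 3) :=
    (((UPoly.const 2).mul (uPoly_nn.add (UPoly.const 1))).add (UPoly.const 3)).range
  refine NPC.Poly.map hC (Poly.flatMap (hM.comp (Poly.fst Poly.id)) (poly_rep ?_ ?_))
  · have hn : UPoly fun t : (Inp × ℕ) × ℕ => nn t.1.1 := uPoly_nn.comp (by fun_prop)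
    have hR : UPoly fun t : (Inp × ℕ) × ℕ => RR t.1.1 := uPoly_RR.comp (by fun_prop)
    have hW : UPoly fun t : (Inp × ℕ) × ℕ => WW t.1.1 := uPoly_WW.comp (by fun_prop)
    have hn1 : UPoly fun t : (Inp × ℕ) × ℕ => nn t.1.1 + 1 := hn.add (UPoly.const 1)
    refine UPoly.of_le (n := fun t : (Inp × ℕ) × ℕ =>
      2 * (nn t.1.1 + 1) * (nn t.1.1 + 1 + 2) + (nn t.1.1 + 1) + 2)
      ?_ (((((UPoly.const 2).mul hn1).mul (hn1.add (UPoly.const 2))).add hn1).add (UPoly.const 2))
      fun t => el_le _ _ _ _ _ _
    exact poly_el hn hR.toPoly hW.toPoly (by fun_prop) (by fun_prop) (by fun_prop)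
  · have hn : UPoly fun t : (Inp × ℕ) × ℕ => nn t.1.1 + 1 :=
      (uPoly_nn.comp (f := fun t : (Inp × ℕ) × ℕ => t.1.1) (by fun_prop)).add (UPoly.const 1)
    have hW : UPoly fun t : (Inp × ℕ) × ℕ => WW t.1.1 := uPoly_WW.comp (by fun_prop)
    exact poly_ec hn.toPoly hW.toPoly (by fun_prop) (by fun_prop)

/-- The reduction, with the parameters in unary. -/
def redEF (y : List Bool × List Unit) : List Bool × List Unit :=
  (Mve.findn y.1).elim (([], []) : List Bool × List Unit) fun n =>
    (bits (brdE (n, y.1, y.2) : Board), List.replicate (y.2.length + 4) ())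

theorem poly_redEF : Poly redEF := by
  unfold redEF
  refine Poly.optElim (Mve.poly_findn.comp (Poly.fst Poly.id)) (NPC.Poly.const _) (Poly.pair
    (Mve.poly_bits ?_) ?_)
  · exact poly_brdE.comp (by fun_prop)
  · exact poly_rep ((UPoly.length (l := fun p : (List Bool × List Unit) × ℕ => p.1.2)
      (by fun_prop)).add (UPoly.const 4)) (NPC.Poly.const _)

/-- The reduction. -/
def redE (y : List Bool × ℕ) : List Bool × ℕ :=
  ((redEF (y.1, List.replicate y.2 ())).1, (redEF (y.1, List.replicate y.2 ())).2.length)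

theorem pc_redE : PC pcode pcode redE := by
  have h : PC (bits : List Bool × List Unit → List Bool) (bits : List Bool × List Unit → List Bool)
    redEF := poly_redEF
  obtain ⟨c, p, h⟩ := h
  refine ⟨c, p, fun y => ?_⟩
  have h1 := h (y.1, List.replicate y.2 ())
  have e : pcode (redE y) = bits (redEF (y.1, List.replicate y.2 ())) := by
    unfold pcode redE
    simp only
    congr 1
    refine Prod.ext rfl ?_
    simp only
    rw [eq_comm, List.eq_replicate_iff]
    exact ⟨rfl, fun _ _ => rfl⟩
  rw [e]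
  exact h1

theorem redE_of_some {x : List Bool} {k n : ℕ} (h : Mve.findn x = some n) :
    redE (x, k) = (bits (board0 (n + 1) (k + 4) (2 * ((k + 4) * n) + 1) (covD n x) : Board),
      k + 4) := by
  have hn := Mve.findn_some h
  have e1 : nn (n, x, List.replicate k ()) = n := by
    unfold nn
    simp only
    rw [hn]
    exact min_eq_left (Nat.le_mul_self n)
  have e2 : kk (n, x, List.replicate k ()) = k := by
    unfold kk
    simp
  unfold redE redEF
  simp only [h, Option.elim]
  rw [brdE_eq]
  unfold WW RR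
  rw [e1, e2]
  simp

theorem redE_of_none {x : List Bool} {k : ℕ} (h : Mve.findn x = none) : redE (x, k) = ([], 0) := by
  unfold redE redEF
  simp [h]

theorem redE_snd_le (x : List Bool) (k : ℕ) : (redE (x, k)).2 ≤ k + 4 := by
  cases h : Mve.findn x with
  | none => rw [redE_of_none h]; exact Nat.zero_le _
  | some n => rw [redE_of_some h]

/-! ### correctness -/

theorem board0_ne {n R W : ℕ} {cov : ℕ → ℕ → Bool} :
    ∀ C ∈ board0 n R W cov, C ≠ [] := by
  intro l hl
  rw [board0_eq, ← filter_board (inv_init (n := n) (W := W)).unif, List.mem_filter,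
    decide_eq_true_eq] at hl
  exact hl.2

theorem board0_lt {n R W : ℕ} {cov : ℕ → ℕ → Bool} : ∀ C ∈ board0 n R W cov, ∀ t ∈ C, t < 4 := by
  intro l hl t ht
  unfold board0 boardF at hl
  rw [List.mem_map] at hl
  obtain ⟨c, -, rfl⟩ := hl
  unfold colF at ht
  rw [List.mem_flatMap] at ht
  obtain ⟨i, -, ht⟩ := ht
  rw [List.eq_of_mem_replicate ht]
  unfold ec
  split_ifs <;> omega

/-- **Correctness of the reduction.** -/
theorem mem_iffE (x : List Bool) (k : ℕ) : (x, k) ∈ pDominatingSet ↔ redE (x, k) ∈ elimProblem := by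
  classical
  cases h : Mve.findn x with
  | none =>
    rw [redE_of_none h]
    constructor
    · rintro ⟨n, hn, -⟩
      exact absurd hn (Mve.findn_none h n)
    · rintro ⟨B, h1, -⟩
      exact absurd h1.symm (Mve.bits_ne_nil _)
  | some n =>
    rw [redE_of_some h, mem_pDominatingSet_iff (Mve.findn_some h)]
    have hW : (2 * ((k + 4) * n) + 1) % 2 = 1 := by omega
    constructor
    · rintro ⟨D, h1, h2, h3⟩
      refine ⟨_, rfl, board0_ne, D.card + 4, by show D.card + 4 ≤ k + 4; omega, ?_⟩
      refine forward hW (fun j hj => by have := h1 j hj; omega) (d := n) (by omega)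
        (fun hn => absurd (h1 n hn) (lt_irrefl n)) ?_
      intro c hc ho
      have hlt : c / 2 / (k + 4) < n := by
        rw [Nat.div_lt_iff_lt_mul (by omega), Nat.mul_comm n (k + 4)]
        omega
      obtain ⟨i, hi, h4⟩ := h3 _ hlt
      refine ⟨i, hi, ?_⟩
      unfold covD
      rw [Bool.and_eq_true, decide_eq_true_eq]
      exact ⟨h1 i hi, h4⟩
    · rintro ⟨B, h1, -, j, hj, h5⟩
      have h6 := bits_injective h1
      subst h6
      rcases Nat.eq_zero_or_pos n with h0 | h0
      · subst h0
        exact ⟨∅, by simp, by simp, by simp⟩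
      · obtain ⟨D, h7, h8, h9⟩ := backward h0 hj h5
        refine ⟨D.filter fun i => i < n, ?_, (Finset.card_filter_le _ _).trans h8, ?_⟩
        · intro i hi
          exact (Finset.mem_filter.1 hi).2
        · intro u hu
          obtain ⟨i, hi, h10⟩ := h9 u hu
          unfold covD at h10
          rw [Bool.and_eq_true, decide_eq_true_eq] at h10
          exact ⟨i, Finset.mem_filter.2 ⟨hi, h10.1⟩, h10.2⟩

/-- **Correctness of the reduction**, for boards with four colours. -/
theorem mem_iffE_colours (x : List Bool) (k : ℕ) :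
    (x, k) ∈ pDominatingSet ↔ redE (x, k) ∈ elimProblemColours 4 := by
  rw [mem_iffE]
  constructor
  · rintro ⟨B, h1, h2, h3⟩
    refine ⟨B, h1, h2, ?_, h3⟩
    cases h : Mve.findn x with
    | none =>
      rw [redE_of_none h] at h1
      exact absurd h1.symm (Mve.bits_ne_nil _)
    | some n =>
      rw [redE_of_some h] at h1
      have h6 := bits_injective h1
      rw [← h6]
      exact board0_lt
  · rintro ⟨B, h1, h2, -, h3⟩
    exact ⟨B, h1, h2, h3⟩

theorem w2Hard_ofE {L : PProblem} (h : ∀ x k, (x, k) ∈ pDominatingSet ↔ redE (x, k) ∈ L) :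
    W2Hard L := fun _ hL' =>
  FptReduces.trans_pc hL' pc_redE (g' := fun k => k + 4)
    (Primrec.to_comp (Primrec.nat_add.comp Primrec.id (Primrec.const 4)))
    (fun _ _ h => Nat.add_le_add_right h 4) redE_snd_le h

theorem w2Hard_elim : W2Hard elimProblem := w2Hard_ofE mem_iffE

theorem w2Hard_elim_colours : W2Hard (elimProblemColours 4) := w2Hard_ofE mem_iffE_colours

end Pool.Agent.L0h82.CE
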